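import Pool.Agent.Q187.RK.Base

/-!
# Varieties whose motive is a sum of Tate motives and a motive in the middle degree
-/

open CategoryTheory AlgebraicGeometry

universe u v w

namespace Pool.Agent.Q187.RK

open Pool.Agent.H914 Pool.Agent.H914.VarClass Pool.Agent.H914.VarClass.Obj Pool.Agent.W492.BB
  Pool.Agent.W550.Corr Pool.Agent.TH133 Pool.Agent.Y148.BB Pool.Agent.Q187.AJ

set_option linter.unusedSectionVars false
set_option linter.unusedVariables false

variable {k : Type u} [Field k] {𝒱 : VarClass k}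

variable {C : TheoryData.{u, v, 0} 𝒱 ℚ} [hC : IsChowProj C] {K : Type w} [Field K]
  {H : WeilTheoryData.{u, v, w} C K} [hH : IsWeilProj H] {X Y Z W B P M : 𝒱.Obj}
  {A : Type*} [AddCommGroup A] {δ : ∀ X : 𝒱.Obj, C.A (X.prod X) → ℤ → A}

/-- A decomposition `Δ = b + ∑ a i × a' i`. -/
structure Mid (H : WeilTheoryData.{u, v, w} C K) (B : 𝒱.Obj) (b : C.A (B.prod B)) {κ : Type}
    [Fintype κ] [DecidableEq κ] (a a' : κ ⊕ κ → C.A B) (t : κ ⊕ κ → ℕ) : Prop where
  deg_a : ∀ i, a i ∈ C.gr B ((B.dim : ℤ) - t i)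
  deg_a' : ∀ i, a' i ∈ C.gr B (t i)
  le : ∀ i, t i ≤ B.dim
  num : ∀ i i', HasDegree C (a' i * a i') (if i = i' then 1 else 0)
  sum : b + ∑ i, C.ext (a i) (a' i) = dg C B
  refl : ∀ s, (t (Sum.inl s) : ℤ) = B.dim - t (Sum.inr s)
  dual : ∀ s, a (Sum.inl s) = a' (Sum.inr s) ∧ a' (Sum.inl s) = a (Sum.inr s)
  kills : ∀ m : ℤ, m ≠ B.dim → Kills H b m

section chow

include hC

lemma hasDegree_of_ne {x : C.A X} {i : ℤ} (hx : x ∈ C.gr X i) (hi : i ≠ X.dim) :
    HasDegree C x 0 := by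
  rcases lt_or_gt_of_ne hi with h | h
  · intro Y
    rw [zero_smul]
    constructor
    · have h2 := C.push_mem (snd X Y) (C.pull_mem (fst X Y) hx)
      rw [C.gr_neg Y _ (by rw [dim_prod]; push_cast; omega)] at h2
      exact (Submodule.mem_bot _).1 h2
    · have h2 := C.push_mem (fst Y X) (C.pull_mem (snd Y X) hx)
      rw [C.gr_neg Y _ (by rw [dim_prod]; push_cast; omega)] at h2
      exact (Submodule.mem_bot _).1 h2
  · rw [hC.gr_top X i _ hx h]
    exact hasDegree_zero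

lemma exists_mid {b : C.A (B.prod B)} (h : IsMiddle C H B b) :
    ∃ (m : ℕ) (a a' : Fin m ⊕ Fin m → C.A B) (t : Fin m ⊕ Fin m → ℕ), Mid H B b a a' t := by
  obtain ⟨m, c, x, y, h1, h2, h3⟩ := h.exists_dual
  refine ⟨m, Sum.elim x y, Sum.elim y x, Sum.elim (fun s => B.dim - c s) c, ?_, ?_, ?_, ?_, ?_, ?_,
    fun s => ⟨rfl, rfl⟩, h.kills⟩
  · rintro (s | s)
    · have h4 := h1 s
      have e : ((B.dim : ℤ) - ((B.dim - c s : ℕ) : ℤ)) = c s := by omega
      change x s ∈ C.gr B ((B.dim : ℤ) - ((B.dim - c s : ℕ) : ℤ))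
      rw [e]
      exact h4.2.1
    · exact (h1 s).2.2
  · rintro (s | s)
    · have h4 := h1 s
      have e : ((B.dim - c s : ℕ) : ℤ) = (B.dim : ℤ) - c s := by omega
      change y s ∈ C.gr B ((B.dim - c s : ℕ) : ℤ)
      rw [e]
      exact h4.2.2
    · exact (h1 s).2.1
  · rintro (s | s)
    · exact Nat.sub_le _ _
    · have := (h1 s).1
      change c s ≤ B.dim
      omega
  · rintro (s | s) (t | t)
    · have h4 := h2 t s
      change HasDegree C (y s * x t) _
      rw [ch_comm C (y s)]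
      by_cases hst : s = t
      · subst hst
        rw [if_pos rfl] at h4 ⊢
        exact h4
      · rw [if_neg (Ne.symm hst)] at h4
        rw [if_neg (fun h5 => hst (Sum.inl_injective h5))]
        exact h4
    · rw [if_neg (by simp)]
      have h5 : y s * y t ∈ C.gr B (((B.dim : ℤ) - c s) + ((B.dim : ℤ) - c t)) :=
        C.mul_mem (h1 s).2.2 (h1 t).2.2
      exact hasDegree_of_ne h5 (by have := (h1 s).1; have := (h1 t).1; omega)
    · rw [if_neg (by simp)]
      have h5 : x s * x t ∈ C.gr B ((c s : ℤ) + c t) := C.mul_mem (h1 s).2.1 (h1 t).2.1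
      exact hasDegree_of_ne h5 (by have := (h1 s).1; have := (h1 t).1; omega)
    · have h4 := h2 s t
      change HasDegree C (x s * y t) _
      by_cases hst : s = t
      · subst hst
        rw [if_pos rfl] at h4 ⊢
        exact h4
      · rw [if_neg hst] at h4
        rw [if_neg (fun h5 => hst (Sum.inr_injective h5))]
        exact h4
  · have e1 : ∑ i, C.ext (Sum.elim x y i) (Sum.elim y x i) =
        ∑ s, (C.ext (x s) (y s) + C.ext (y s) (x s)) := by
      rw [Fintype.sum_sum_type, Finset.sum_add_distrib]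
      rfl
    rw [e1]
    exact h3
  · intro s
    have := (h1 s).1
    change ((B.dim - c s : ℕ) : ℤ) = (B.dim : ℤ) - c s
    omega

variable {b : C.A (B.prod B)} {κ : Type} [Fintype κ] [DecidableEq κ] {a a' : κ ⊕ κ → C.A B}
  {t : κ ⊕ κ → ℕ} {ι : Type} [Fintype ι]

lemma mid_orth (h : Mid H B b a a' t) : Orth (fun i => C.ext (a i) (a' i)) := by
  have key : ∀ i i', C.comp (C.ext (a i) (a' i)) (C.ext (a i') (a' i')) =
      if i = i' then C.ext (a i) (a' i) else 0 := by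
    intro i i'
    rw [comp_ext_ext (h.num i i')]
    split_ifs with hi
    · rw [one_smul, hi]
    · rw [zero_smul]
  refine ⟨fun i => ⟨?_, ?_⟩, fun i i' hi => ?_⟩
  · have h1 := ext_mem' (h.deg_a i) (h.deg_a' i)
    rw [sub_add_cancel] at h1
    exact h1
  · rw [key, if_pos rfl]
  · rw [key, if_neg hi]

/-- The complement of an orthogonal family. -/
lemma compl_orth {p : ι → C.A (B.prod B)} (hp : Orth p) (hs : b + ∑ i, p i = dg C B) :
    Pr b ∧ C.comp b (∑ i, p i) = 0 ∧ C.comp (∑ i, p i) b = 0 := by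
  obtain ⟨⟨h1, h2⟩, -⟩ := orth_sum hp Finset.univ
  have h3 : C.comp b (∑ i, p i) = 0 := by
    have h4 := dg_comp C (∑ i, p i)
    rw [← hs, add_comp, h2] at h4
    exact add_eq_right.1 h4
  have h5 : C.comp (∑ i, p i) b = 0 := by
    have h4 := comp_dg C (∑ i, p i)
    rw [← hs, comp_add, h2] at h4
    exact add_eq_right.1 h4
  refine ⟨⟨?_, ?_⟩, h3, h5⟩
  · have h6 : b = dg C B - ∑ i, p i := eq_sub_of_add_eq hs
    rw [h6]
    exact Submodule.sub_mem _ (dg_mem C B) h1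
  · have h4 := comp_dg C b
    rw [← hs, comp_add, h3, add_zero] at h4
    exact h4

lemma pr_tens {p : C.A (X.prod X)} {q : C.A (Y.prod Y)} (hp : Pr p) (hq : Pr q) :
    Pr (tens C p q) := by
  refine ⟨?_, by rw [tens_comp', hp.2, hq.2]⟩
  have := tens_mem C hp.1 hq.1
  rw [dim_prod]
  exact_mod_cast this

lemma pr_dg (X : 𝒱.Obj) : Pr (dg C X) := ⟨dg_mem C X, comp_dg C _⟩

lemma orth_tens {p : ι → C.A (B.prod B)} (hp : Orth p) {q : C.A (X.prod X)} (hq : Pr q) :
    Orth (fun i => tens C q (p i)) :=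
  ⟨fun i => pr_tens hq (hp.1 i), fun i i' h => by
    rw [tens_comp', hp.2 i i' h, tens_zero_right]⟩

lemma tens_add_right (q : C.A (X.prod X)) (r r' : C.A (B.prod B)) :
    tens C q (r + r') = tens C q r + tens C q r' := map_add (tensL q) r r'

lemma tens_sum_right (q : C.A (X.prod X)) (p : ι → C.A (B.prod B)) :
    tens C q (∑ i, p i) = ∑ i, tens C q (p i) := map_sum (tensL q) p Finset.univ

/-! ### Tate twists -/

lemma wg_eq (f : M ⟶ X) (w : C.A M) : wg C f w = C.comp (wg C (𝟙 M) w) (C.graph f) := by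
  have e1 : Obj.lift (𝟙 M) (𝟙 M) ≫ prodMap (𝟙 M) f = Obj.lift (𝟙 M) f := by
    apply prod_ext <;> simp
  rw [comp_graph, wg, wg, ← C.push_comp, e1]

lemma tp_wg_comp_wg (f : M ⟶ X) (x w : C.A M) :
    C.comp (tp C (wg C f x)) (wg C f w) = C.push (Obj.lift (𝟙 X) (𝟙 X)) (C.push f (w * x)) := by
  have e1 : C.comp (wg C (𝟙 M) x) (wg C f w) = wg C f (w * x) := by
    have e2 : prodMap (𝟙 M) (𝟙 X) = 𝟙 (M.prod X) := prodMap_id M X
    have e3 : Obj.lift (𝟙 M) f ≫ fst M X = 𝟙 M := lift_fst _ _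
    rw [wg_comp, e2, C.pull_id, wg, ← C.proj_right, ← C.pull_comp, e3, C.pull_id]
    rfl
  have e4 : tp C (wg C f x) = C.comp (tp C (C.graph f)) (tp C (wg C (𝟙 M) x)) := by
    rw [wg_eq f x, tp_comp C (ch_comm C)]
  have e5 : tp C (wg C (𝟙 M) x) = wg C (𝟙 M) x := by
    have e6 : Obj.lift (𝟙 M) (𝟙 M) ≫ sw M M = Obj.lift (𝟙 M) (𝟙 M) := by
      apply prod_ext <;> simp [sw]
    rw [tp_eq_push, wg, ← C.push_comp, e6]
  have e7 : C.comp (tp C (C.graph f)) (wg C f (w * x)) =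
      C.push (Obj.lift (𝟙 X) (𝟙 X)) (C.push f (w * x)) := by
    have e8 : C.comp (tp C (C.graph f)) (wg C (𝟙 M) (w * x)) =
        tp C (wg C f (w * x)) := by
      have e9 : tp C (wg C (𝟙 M) (w * x)) = wg C (𝟙 M) (w * x) := by
        have e6 : Obj.lift (𝟙 M) (𝟙 M) ≫ sw M M = Obj.lift (𝟙 M) (𝟙 M) := by
          apply prod_ext <;> simp [sw]
        rw [tp_eq_push, wg, ← C.push_comp, e6]
      rw [wg_eq f (w * x), tp_comp C (ch_comm C), e9]
    have e10 : Obj.lift (𝟙 M) f ≫ sw M X ≫ prodMap (𝟙 X) f = f ≫ Obj.lift (𝟙 X) (𝟙 X) := by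
      apply prod_ext <;> simp [sw, comp_lift]
    rw [wg_eq f (w * x), ← comp_assoc C, e8, comp_graph, tp_eq_push, ← C.push_comp, wg,
      ← C.push_comp, e10, C.push_comp]
  rw [e4, e5, comp_assoc C, e1, e7]

/-- The motive `(X × B, q ⊗ (a × a'))` is a twist of `(X, q)`. -/
lemma twist_data (h : Mid H B b a a' t) {q : C.A (X.prod X)} (hq : Pr q) (i : κ ⊕ κ) :
    ∃ (F : C.A ((X.prod B).prod X)) (G : C.A (X.prod (X.prod B))),
      C.Deg ((X.prod B).dim + (-(t i : ℤ))) F ∧ C.Deg (X.dim - (-(t i : ℤ))) G ∧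
        C.comp F G = tens C q (C.ext (a i) (a' i)) ∧ C.comp G F = q := by
  have h1 : wg C (fst X B) (C.pull (snd X B) (a i)) ∈
      C.gr ((X.prod B).prod X) ((X.prod B).dim + (-(t i : ℤ))) := by
    have h2 := wg_mem (fst X B) (C.pull_mem (snd X B) (h.deg_a i))
    refine gr_congr ?_ h2
    rw [dim_prod]; push_cast; ring
  have h3 : tp C (wg C (fst X B) (C.pull (snd X B) (a' i))) ∈
      C.gr (X.prod (X.prod B)) (X.dim + (t i : ℤ)) := by
    have h2 := tp_mem C (wg_mem (fst X B) (C.pull_mem (snd X B) (h.deg_a' i)))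
    refine gr_congr ?_ h2
    ring
  have h4 : C.comp (tp C (wg C (fst X B) (C.pull (snd X B) (a' i))))
      (wg C (fst X B) (C.pull (snd X B) (a i))) = dg C X := by
    have h5 := (h.num i i) X
    rw [if_pos rfl, one_smul] at h5
    rw [tp_wg_comp_wg, ← map_mul, ch_comm C (a i), h5.2]
    rfl
  refine ⟨C.comp (wg C (fst X B) (C.pull (snd X B) (a i))) q,
    C.comp q (tp C (wg C (fst X B) (C.pull (snd X B) (a' i)))), ?_, ?_, ?_, ?_⟩
  · have h6 := comp_mem C (e := -(t i : ℤ)) (e' := 0) h1 (by rw [add_zero]; exact hq.1)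
    rw [add_zero] at h6
    exact h6
  · have h6 := comp_mem C (e := 0) (e' := (t i : ℤ)) (by rw [add_zero]; exact hq.1) h3
    rw [zero_add] at h6
    rw [sub_neg_eq_add]
    exact h6
  · rw [comp_assoc C, ← comp_assoc C q q, hq.2, ← tens_ext_right]
  · rw [comp_assoc C, ← comp_assoc C (tp C _), h4, dg_comp, hq.2]

end chow

variable {b : C.A (B.prod B)} {κ : Type} [Fintype κ] [DecidableEq κ] {a a' : κ ⊕ κ → C.A B}
  {t : κ ⊕ κ → ℕ} {ι : Type} [Fintype ι]

include hC hH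

lemma mid_pr (h : Mid H B b a a' t) : Pr b := (compl_orth (mid_orth h) h.sum).1

lemma mid_split (h : Mid H B b a a' t) {q : C.A (X.prod X)} (hq : Pr q) :
    Pr (tens C q b) ∧ Orth (fun i => tens C q (C.ext (a i) (a' i))) ∧
      tens C q (dg C B) = tens C q b + ∑ i, tens C q (C.ext (a i) (a' i)) ∧
      C.comp (tens C q b) (∑ i, tens C q (C.ext (a i) (a' i))) = 0 ∧
      C.comp (∑ i, tens C q (C.ext (a i) (a' i))) (tens C q b) = 0 := by
  obtain ⟨h1, h2, h3⟩ := compl_orth (mid_orth h) h.sum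
  refine ⟨pr_tens hq h1, orth_tens (mid_orth h) hq, ?_, ?_, ?_⟩
  · rw [← h.sum, tens_add_right, tens_sum_right]
  · rw [← tens_sum_right, tens_comp', h2, tens_zero_right]
  · rw [← tens_sum_right, tens_comp', h3, tens_zero_right]

lemma fn_twist (h : Mid H B b a a' t) {q : C.A (X.prod X)} (hq : Pr q) (i : κ ⊕ κ) (j : ℤ) :
    Fn H (X.prod B) (tens C q (C.ext (a i) (a' i))) j ↔ Fn H X q (j - t i) := by
  obtain ⟨F, G, hF, hG, h1, h2⟩ := twist_data h hq i
  rw [fn_iso hF hG h1 h2, ← sub_eq_add_neg]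

lemma fn_split (h : Mid H B b a a' t) {q : C.A (X.prod X)} (hq : Pr q) (j : ℤ) :
    Fn H (X.prod B) (tens C q (dg C B)) j ↔
      Fn H (X.prod B) (tens C q b) j ∧ ∀ i, Fn H X q (j - t i) := by
  obtain ⟨h1, h2, h3, h4, h5⟩ := mid_split h hq
  rw [h3, fn_add h1 (orth_sum h2 Finset.univ).1 h4 h5, fn_sum h2]
  simp only [Finset.mem_univ, true_implies, fn_twist h hq]

/-- The motive of `B` and its middle part have the same homologically trivial cycles. -/
lemma tate_bot (h : Mid H B b a a' t) (i : κ ⊕ κ) (j : ℤ) :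
    homTriv C H (C.ext (a i) (a' i)) j = ⊥ := by
  rw [eq_bot_iff]
  rintro z ⟨hz, h0, hzz⟩
  have h0' : H.cl z = 0 := h0
  have h1 : a i * z ∈ C.gr B (((B.dim : ℤ) - t i) + j) := C.mul_mem (h.deg_a i) hz
  rw [Submodule.mem_bot, ← hzz]
  by_cases hj : j = t i
  · subst hj
    rw [sub_add_cancel] at h1
    have h2 : HasDegree C (a i * z) 0 :=
      hasDegree_zero_of_cl H h1 (by rw [map_mul, h0', mul_zero])
    rw [act_ext' h2, zero_smul]
  · exact act_ext_zero_of_lt h1 (by omega)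

lemma fn_mid (h : Mid H B b a a' t) (j : ℤ) : Fn H B (dg C B) j ↔ Fn H B b j := by
  obtain ⟨h1, h2, h3⟩ := compl_orth (mid_orth h) h.sum
  rw [← h.sum, fn_add h1 (orth_sum (mid_orth h) Finset.univ).1 h2 h3, fn_sum (mid_orth h)]
  refine ⟨fun h => h.1, fun h4 => ⟨h4, fun i _ => ?_⟩⟩
  rw [Fn, tate_bot h]
  infer_instance

lemma bot_twist (h : Mid H B b a a' t) {q : C.A (X.prod X)} (hq : Pr q) (i : κ ⊕ κ) {j : ℤ}
    (h0 : homTriv C H q (j - t i) = ⊥) :
    homTriv C H (tens C q (C.ext (a i) (a' i))) j = ⊥ := by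
  obtain ⟨F, G, hF, hG, h1, h2⟩ := twist_data h hq i
  refine bot_iso hF hG h1 h2 ?_
  rwa [← sub_eq_add_neg]

variable (hδ : IsDefect H δ)
include hδ

lemma δ_twist (h : Mid H B b a a' t) {q : C.A (X.prod X)} (hq : Pr q) (i : κ ⊕ κ) (j : ℤ) :
    δ (X.prod B) (tens C q (C.ext (a i) (a' i))) j = δ X q (j - t i) := by
  obtain ⟨F, G, hF, hG, h1, h2⟩ := twist_data h hq i
  rw [hδ.iso _ _ _ _ _ j F G ((mid_split h hq).2.1.1 i) hq hF hG h1 h2, ← sub_eq_add_neg]

lemma δ_split (h : Mid H B b a a' t) {q : C.A (X.prod X)} (hq : Pr q) {j : ℤ}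
    (hf : Fn H (X.prod B) (tens C q (dg C B)) j) :
    δ (X.prod B) (tens C q (dg C B)) j =
      δ (X.prod B) (tens C q b) j + ∑ i, δ X q (j - t i) := by
  obtain ⟨h1, h2, h3, h4, h5⟩ := mid_split h hq
  obtain ⟨h6, h7⟩ := (fn_split h hq j).1 hf
  have h8 : ∀ i ∈ Finset.univ, Fn H (X.prod B) (tens C q (C.ext (a i) (a' i))) j :=
    fun i _ => (fn_twist h hq i j).2 (h7 i)
  rw [h3, hδ.add _ _ _ j h1 (orth_sum h2 Finset.univ).1 h4 h5 h6
    ((fn_sum h2 Finset.univ j).2 h8), δ_sum hδ h2 Finset.univ h8]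
  simp only [δ_twist hδ h hq]

lemma δ_mid (h : Mid H B b a a' t) {j : ℤ} (hf : Fn H B (dg C B) j) :
    δ B (dg C B) j = δ B b j := by
  obtain ⟨h1, h2, h3⟩ := compl_orth (mid_orth h) h.sum
  have h4 : ∀ i ∈ Finset.univ, Fn H B (C.ext (a i) (a' i)) j :=
    fun i _ => fn_of_bot (tate_bot h i j)
  have h5 : ∀ i ∈ Finset.univ, δ B (C.ext (a i) (a' i)) j = 0 := fun i _ =>
    hδ.zero B _ j ((mid_orth h).1 i) (fun y hy =>
      act_ext_ne (h.deg_a' i) (h.deg_a i) (by omega) hy) (tate_bot h i j)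
  have h7 : δ B (b + ∑ i, C.ext (a i) (a' i)) j =
      δ B b j + δ B (∑ i, C.ext (a i) (a' i)) j :=
    hδ.add B _ _ j h1 (orth_sum (mid_orth h) Finset.univ).1 h2 h3 ((fn_mid h j).1 hf)
      ((fn_sum (mid_orth h) Finset.univ j).2 h4)
  rw [h.sum] at h7
  rw [h7, δ_sum hδ (mid_orth h) Finset.univ h4, Finset.sum_eq_zero h5, add_zero]

end Pool.Agent.Q187.RK
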