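import Pool.Agent.Q187.RK.Mid

/-!
# The averaged rank formula
-/

open CategoryTheory AlgebraicGeometry

universe u v w

namespace Pool.Agent.Q187.RK

open Pool.Agent.H914 Pool.Agent.H914.VarClass Pool.Agent.H914.VarClass.Obj Pool.Agent.W492.BB
  Pool.Agent.W550.Corr Pool.Agent.TH133 Pool.Agent.Y148.BB Pool.Agent.Q187.AJ

set_option linter.unusedSectionVars false
set_option linter.unusedVariables false

variable {k : Type u} [Field k] {𝒱 : VarClass k}

variable {C : TheoryData.{u, v, 0} 𝒱 ℚ} [hC : IsChowProj C] {K : Type w} [Field K]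
  {H : WeilTheoryData.{u, v, w} C K} [hH : IsWeilProj H] {X Y Z W B P M L : 𝒱.Obj}
  {A : Type*} [AddCommGroup A] {δ : ∀ X : 𝒱.Obj, C.A (X.prod X) → ℤ → A}

/-- The averaged formula for `(X, q)`, in the codimensions `j ≤ N` with `dim X + 1 - j ≤ N`. -/
def Sym (H : WeilTheoryData.{u, v, w} C K) {A : Type*} [AddCommGroup A]
    (δ : ∀ X : 𝒱.Obj, C.A (X.prod X) → ℤ → A) (N : ℤ) (X : 𝒱.Obj) (q : C.A (X.prod X)) : Prop :=
  ∀ j : ℤ, j ≤ N → (X.dim : ℤ) + 1 - j ≤ N →
    Fn H X q j ∧ (2 * j = X.dim + 1 → δ X q j = 0) ∧ δ X q j + δ X q (X.dim + 1 - j) = 0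

include hC hH

section line

/-- The projective line: a curve `L` with `Δ = o × L + L × o`. -/
def IsLine (C : TheoryData.{u, v, 0} 𝒱 ℚ) (L : 𝒱.Obj) (o : C.A L) : Prop :=
  L.dim = 1 ∧ C.Deg 1 o ∧ HasDegree C o 1 ∧ C.ext o 1 + C.ext 1 o = dg C L

omit hH in
lemma mid_line {o : C.A L} (h : IsLine C L o) :
    Mid H L 0 (κ := Unit) (Sum.elim (fun _ => 1) (fun _ => o)) (Sum.elim (fun _ => o) (fun _ => 1))
      (Sum.elim (fun _ => 1) (fun _ => 0)) := by
  obtain ⟨hL, ho, hd, hdg⟩ := h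
  refine ⟨?_, ?_, ?_, ?_, ?_, ?_, fun s => ⟨rfl, rfl⟩, ?_⟩
  · rintro (_ | _)
    · change (1 : C.A L) ∈ C.gr L ((L.dim : ℤ) - (1 : ℕ))
      rw [hL]; exact C.one_mem L
    · change o ∈ C.gr L ((L.dim : ℤ) - (0 : ℕ))
      rw [hL]; exact ho
  · rintro (_ | _)
    · change o ∈ C.gr L (1 : ℕ)
      exact_mod_cast ho
    · change (1 : C.A L) ∈ C.gr L (0 : ℕ)
      exact_mod_cast C.one_mem L
  · rintro (_ | _)
    · change 1 ≤ L.dim
      omega
    · exact Nat.zero_le _
  · rintro (_ | _) (_ | _)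
    · change HasDegree C (o * 1) 1
      rw [mul_one]; exact hd
    · change HasDegree C (o * o) 0
      exact hasDegree_of_ne (C.mul_mem ho ho) (by rw [hL]; norm_num)
    · change HasDegree C (1 * 1 : C.A L) 0
      rw [mul_one]
      exact hasDegree_of_ne (C.one_mem L) (by rw [hL]; norm_num)
    · change HasDegree C (1 * o) 1
      rw [one_mul]; exact hd
  · rw [Fintype.sum_sum_type, zero_add]
    simp only [Finset.univ_unique, Sum.elim_inl, Sum.elim_inr, Finset.sum_const,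
      Finset.card_singleton, one_smul]
    rw [add_comm]
    exact hdg
  · rintro _
    change ((1 : ℕ) : ℤ) = (L.dim : ℤ) - ((0 : ℕ) : ℤ)
    rw [hL]; norm_num
  · intro m _ a _
    rw [map_zero, TheoryData.act_zero]

lemma fnL {o : C.A L} (h : IsLine C L o) {q : C.A (X.prod X)} (hq : Pr q) (j : ℤ) :
    Fn H (X.prod L) (tens C q (dg C L)) j ↔ Fn H X q j ∧ Fn H X q (j - 1) := by
  rw [fn_split (mid_line h) hq j, tens_zero_right]
  constructor
  · rintro ⟨_, h1⟩
    have h2 := h1 (Sum.inr ())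
    have h3 := h1 (Sum.inl ())
    simp only [Sum.elim_inl, Sum.elim_inr, Nat.cast_zero, sub_zero, Nat.cast_one] at h2 h3
    exact ⟨h2, h3⟩
  · rintro ⟨h1, h2⟩
    refine ⟨fn_zero j, ?_⟩
    rintro (_ | _)
    · simpa using h2
    · simpa using h1

lemma δL (hδ : IsDefect H δ) {o : C.A L} (h : IsLine C L o) {q : C.A (X.prod X)} (hq : Pr q)
    {j : ℤ} (hf : Fn H (X.prod L) (tens C q (dg C L)) j) :
    δ (X.prod L) (tens C q (dg C L)) j = δ X q j + δ X q (j - 1) := by
  rw [δ_split hδ (mid_line h) hq hf, tens_zero_right, δ_zero hδ, Fintype.sum_sum_type, zero_add]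
  simp only [Finset.univ_unique, Sum.elim_inl, Sum.elim_inr, Finset.sum_const,
    Finset.card_singleton, one_smul, Nat.cast_zero, sub_zero, Nat.cast_one]
  rw [add_comm]

end line

section transport

variable {f : X ⟶ Y} {g : Y ⟶ X} {N : ℤ}

lemma sym_var (hδ : IsDefect H δ) (h1 : f ≫ g = 𝟙 X) (h2 : g ≫ f = 𝟙 Y) (hd : X.dim = Y.dim)
    {p : C.A (Y.prod Y)} (hp : Pr p) (h : Sym H δ N Y p) :
    Sym H δ N X (C.pull (prodMap f f) p) := by
  intro j hj hj'
  rw [hd] at hj' ⊢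
  rw [fn_var h1 h2 hd hp, δ_var hδ h1 h2 hd hp, δ_var hδ h1 h2 hd hp]
  exact h j hj hj'

end transport

/-- The exchange `(X × Y) × Z ≅ (X × Z) × Y`. -/
noncomputable def ex (X Y Z : 𝒱.Obj) : (X.prod Y).prod Z ⟶ (X.prod Z).prod Y :=
  Obj.lift (Obj.lift (fst (X.prod Y) Z ≫ fst X Y) (snd (X.prod Y) Z)) (fst (X.prod Y) Z ≫ snd X Y)

omit hC hH in
lemma ex_ex (X Y Z : 𝒱.Obj) : ex X Y Z ≫ ex X Z Y = 𝟙 _ := by
  apply prod_ext
  · apply prod_ext <;> simp [ex, comp_lift]
  · simp [ex, comp_lift]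

omit hH in
lemma pull_ex_tens {X' Y' Z' : 𝒱.Obj} (Γ : C.A (X.prod X')) (Δ : C.A (Y.prod Y'))
    (Θ : C.A (Z.prod Z')) :
    C.pull (prodMap (ex X Y Z) (ex X' Y' Z')) (tens C (tens C Γ Θ) Δ) =
      tens C (tens C Γ Δ) Θ := by
  have e1 : ex X Y Z ≫ fst (X.prod Z) Y ≫ fst X Z = fst (X.prod Y) Z ≫ fst X Y := by
    simp [ex]
  have e2 : ex X' Y' Z' ≫ fst (X'.prod Z') Y' ≫ fst X' Z' = fst (X'.prod Y') Z' ≫ fst X' Y' := by
    simp [ex]
  have e3 : ex X Y Z ≫ fst (X.prod Z) Y ≫ snd X Z = snd (X.prod Y) Z := by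
    simp [ex]
  have e4 : ex X' Y' Z' ≫ fst (X'.prod Z') Y' ≫ snd X' Z' = snd (X'.prod Y') Z' := by
    simp [ex]
  have e5 : ex X Y Z ≫ snd (X.prod Z) Y = fst (X.prod Y) Z ≫ snd X Y := by
    simp [ex]
  have e6 : ex X' Y' Z' ≫ snd (X'.prod Z') Y' = fst (X'.prod Y') Z' ≫ snd X' Y' := by
    simp [ex]
  simp only [tens, map_mul, ← C.pull_comp, prodMap_comp, e1, e2, e3, e4, e5, e6]
  rw [mul_assoc, mul_assoc, ch_comm C (C.pull _ Θ)]

omit hH in
lemma pull_sw_tens {X' Y' : 𝒱.Obj} (Γ : C.A (X.prod X')) (Δ : C.A (Y.prod Y')) :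
    C.pull (prodMap (sw X Y) (sw X' Y')) (tens C Δ Γ) = tens C Γ Δ := by
  have e1 : sw X Y ≫ fst Y X = snd X Y := lift_fst _ _
  have e2 : sw X' Y' ≫ fst Y' X' = snd X' Y' := lift_fst _ _
  have e3 : sw X Y ≫ snd Y X = fst X Y := lift_snd _ _
  have e4 : sw X' Y' ≫ snd Y' X' = fst X' Y' := lift_snd _ _
  simp only [tens, map_mul, ← C.pull_comp, prodMap_comp, e1, e2, e3, e4]
  rw [ch_comm C]

variable (hδ : IsDefect H δ) {N : ℤ}
include hδ

section step

variable {b : C.A (B.prod B)} {κ : Type} [Fintype κ] [DecidableEq κ] {a a' : κ ⊕ κ → C.A B}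
  {t : κ ⊕ κ → ℕ}

/-- The averaged formula passes to the middle part of a factor. -/
lemma sym_step (h : Mid H B b a a' t) {q : C.A (X.prod X)} (hq : Pr q)
    (h1 : Sym H δ N (X.prod B) (tens C q (dg C B))) (h2 : Sym H δ N X q) :
    Sym H δ N (X.prod B) (tens C q b) := by
  have hdim : ((X.prod B).dim : ℤ) = X.dim + B.dim := by rw [dim_prod]; push_cast; ring
  have hpair : ∀ (j : ℤ) (s : κ), (X.dim : ℤ) + B.dim + 1 - j - t (Sum.inl s) =
      (X.dim : ℤ) + 1 - (j - t (Sum.inr s)) := by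
    intro j s
    rw [h.refl s]
    ring
  intro j hj hj'
  rw [hdim] at hj' ⊢
  obtain ⟨h3, h4, h5⟩ := h1 j hj (by rw [hdim]; exact hj')
  obtain ⟨h6, -, -⟩ := h1 ((X.dim : ℤ) + B.dim + 1 - j) hj' (by rw [hdim]; linarith)
  rw [hdim] at h4 h5
  have h7 := δ_split hδ h hq h3
  have h8 := δ_split hδ h hq h6
  refine ⟨((fn_split h hq j).1 h3).1, fun hc => ?_, ?_⟩
  · have h9 : ∑ i, δ X q (j - t i) = 0 := by
      rw [Fintype.sum_sum_type, ← Finset.sum_add_distrib]
      refine Finset.sum_eq_zero fun s _ => ?_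
      have h10 := h.le (Sum.inr s)
      have h11 := hpair j s
      have h12 := (h2 (j - t (Sum.inr s)) (by omega) (by omega)).2.2
      have e1 : j - (t (Sum.inl s) : ℤ) = (X.dim : ℤ) + 1 - (j - t (Sum.inr s)) := by omega
      rw [e1, add_comm]
      exact h12
    rw [h4 hc, h9, add_zero] at h7
    exact h7.symm
  · have h9 : ∑ i, δ X q (j - t i) + ∑ i, δ X q ((X.dim : ℤ) + B.dim + 1 - j - t i) = 0 := by
      rw [Fintype.sum_sum_type, Fintype.sum_sum_type]
      have e1 : ∑ s, δ X q ((X.dim : ℤ) + B.dim + 1 - j - t (Sum.inl s)) =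
          ∑ s, δ X q ((X.dim : ℤ) + 1 - (j - t (Sum.inr s))) :=
        Finset.sum_congr rfl fun s _ => by rw [hpair j s]
      have e2 : ∑ s, δ X q ((X.dim : ℤ) + B.dim + 1 - j - t (Sum.inr s)) =
          ∑ s, δ X q ((X.dim : ℤ) + 1 - (j - t (Sum.inl s))) :=
        Finset.sum_congr rfl fun s _ => by
          congr 1
          rw [h.refl s]
          ring
      have e3 : ∀ i, δ X q (j - t i) + δ X q ((X.dim : ℤ) + 1 - (j - t i)) = 0 := by
        intro i
        have hti := h.le i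
        exact (h2 (j - t i) (by omega) (by omega)).2.2
      have e4 : ∑ s, δ X q (j - t (Sum.inl s)) +
          ∑ s, δ X q ((X.dim : ℤ) + 1 - (j - t (Sum.inl s))) = 0 := by
        rw [← Finset.sum_add_distrib]
        exact Finset.sum_eq_zero fun s _ => e3 _
      have e5 : ∑ s, δ X q (j - t (Sum.inr s)) +
          ∑ s, δ X q ((X.dim : ℤ) + 1 - (j - t (Sum.inr s))) = 0 := by
        rw [← Finset.sum_add_distrib]
        exact Finset.sum_eq_zero fun s _ => e3 _
      have e6 : ∀ x y z w : A, x + z = 0 → y + w = 0 → (x + y) + (w + z) = 0 := by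
        intro x y z w h1 h2
        have e7 : (x + y) + (w + z) = (x + z) + (y + w) := by abel
        rw [e7, h1, h2, add_zero]
      rw [e1, e2]
      exact e6 _ _ _ _ e4 e5
    rw [h7, h8, add_add_add_comm, h9, add_zero] at h5
    exact h5

end step

section base

variable {𝓢 : 𝒱.Obj → Prop} {o : C.A L} (hL : IsLine C L o)
  (hS : ∀ X, 𝓢 X → 𝓢 (X.prod L))
  (hmid : ∀ X, 𝓢 X → ∀ i : ℤ, i ≤ N → (X.dim : ℤ) = 2 * i - 1 →
    Fn H X (dg C X) i ∧ δ X (dg C X) i = 0)
include hL hS hmid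

lemma base_fn : ∀ (s : ℕ) (X : 𝒱.Obj), 𝓢 X → ∀ j : ℤ, j ≤ N → (X.dim : ℤ) + 1 - j ≤ N →
    (2 * j - (X.dim + 1)).natAbs = s → Fn H X (dg C X) j := by
  intro s
  induction s with
  | zero =>
    intro X hX j hj hj' hs
    exact (hmid X hX j hj (by omega)).1
  | succ s ih =>
    intro X hX j hj hj' hs
    have hdim : ((X.prod L).dim : ℤ) = X.dim + 1 := by rw [dim_prod, hL.1]; push_cast; ring
    rcases lt_or_ge (X.dim + 1 : ℤ) (2 * j) with h | h
    · have h1 := ih (X.prod L) (hS X hX) j hj (by rw [hdim]; omega) (by rw [hdim]; omega)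
      rw [← tens_dg] at h1
      exact ((fnL hL (pr_dg X) j).1 h1).1
    · have h1 := ih (X.prod L) (hS X hX) (j + 1) (by omega) (by rw [hdim]; omega)
        (by rw [hdim]; omega)
      rw [← tens_dg] at h1
      have h2 := ((fnL hL (pr_dg X) (j + 1)).1 h1).2
      rwa [add_sub_cancel_right] at h2

lemma base_δ : ∀ (s : ℕ) (X : 𝒱.Obj), 𝓢 X → ∀ j : ℤ, j ≤ N → (X.dim : ℤ) + 1 - j ≤ N →
    (2 * j - (X.dim + 1)).natAbs ≤ s →
      δ X (dg C X) j + δ X (dg C X) (X.dim + 1 - j) = 0 := by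
  intro s
  induction s with
  | zero =>
    intro X hX j hj hj' hs
    have e1 : (X.dim : ℤ) + 1 - j = j := by omega
    rw [e1, (hmid X hX j hj (by omega)).2, add_zero]
  | succ s ih =>
    have key : ∀ X, 𝓢 X → ∀ j : ℤ, j ≤ N → (X.dim : ℤ) + 1 - j ≤ N →
        2 * j - (X.dim + 1) = s + 1 →
          δ X (dg C X) j + δ X (dg C X) (X.dim + 1 - j) = 0 := by
      intro X hX j hj hj' hs
      have hdim : ((X.prod L).dim : ℤ) = X.dim + 1 := by rw [dim_prod, hL.1]; push_cast; ring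
      have h2 : Fn H (X.prod L) (tens C (dg C X) (dg C L)) j := by
        rw [tens_dg]
        exact base_fn hδ hL hS hmid _ _ (hS X hX) j hj (by rw [hdim]; omega) rfl
      rcases Nat.eq_zero_or_pos s with h0 | h0
      · have h1 := (hmid (X.prod L) (hS X hX) j hj (by rw [hdim]; omega)).2
        rw [← tens_dg, δL hδ hL (pr_dg X) h2] at h1
        have e3 : j - 1 = (X.dim : ℤ) + 1 - j := by omega
        rw [e3] at h1
        exact h1
      · have h1 := ih (X.prod L) (hS X hX) j hj (by rw [hdim]; omega) (by rw [hdim]; omega)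
        rw [hdim, ← tens_dg] at h1
        have h3 : Fn H (X.prod L) (tens C (dg C X) (dg C L)) ((X.dim : ℤ) + 1 + 1 - j) := by
          rw [tens_dg]
          exact base_fn hδ hL hS hmid _ _ (hS X hX) _ (by omega) (by rw [hdim]; omega) rfl
        rw [δL hδ hL (pr_dg X) h2, δL hδ hL (pr_dg X) h3] at h1
        have e1 : (X.dim : ℤ) + 1 + 1 - j - 1 = X.dim + 1 - j := by ring
        have e2 : (X.dim : ℤ) + 1 + 1 - j = X.dim + 1 - (j - 1) := by ring
        rw [e1, e2] at h1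
        have h4 := ih X hX (j - 1) (by omega) (by omega) (by omega)
        rw [add_comm (δ X (dg C X) ((X.dim : ℤ) + 1 - (j - 1))), add_add_add_comm, h4,
          add_zero] at h1
        exact h1
    intro X hX j hj hj' hs
    rcases Nat.lt_or_ge (2 * j - (X.dim + 1)).natAbs (s + 1) with h | h
    · exact ih X hX j hj hj' (by omega)
    · rcases lt_or_ge (X.dim + 1 : ℤ) (2 * j) with h1 | h1
      · exact key X hX j hj hj' (by omega)
      · have h2 := key X hX ((X.dim : ℤ) + 1 - j) hj' (by omega) (by omega)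
        have e4 : (X.dim : ℤ) + 1 - (X.dim + 1 - j) = j := by ring
        rw [e4, add_comm] at h2
        exact h2

/-- The averaged formula follows from the middle cases. -/
theorem sym_base (hX : 𝓢 X) : Sym H δ N X (dg C X) := fun j hj hj' =>
  ⟨base_fn hδ hL hS hmid _ X hX j hj hj' rfl, fun hc => (hmid X hX j hj (by omega)).2,
    base_δ hδ hL hS hmid _ X hX j hj hj' le_rfl⟩

end base

/-! ### The middle parts of products -/

/-- The averaged formula for `(X, q)` and all the products `(X × W, q ⊗ Δ)`. -/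
def AG (H : WeilTheoryData.{u, v, w} C K) {A : Type*} [AddCommGroup A]
    (δ : ∀ X : 𝒱.Obj, C.A (X.prod X) → ℤ → A) (N : ℤ) (X : 𝒱.Obj) (q : C.A (X.prod X)) : Prop :=
  Sym H δ N X q ∧ ∀ W, IsProd C H W → Sym H δ N (X.prod W) (tens C q (dg C W))

section AG

omit hC hH hδ in
lemma ag_of_prod (h : ∀ W, IsProd C H W → Sym H δ N W (dg C W)) [IsChowProj C]
    (hX : IsProd C H X) : AG H δ N X (dg C X) := by
  refine ⟨h X hX, fun W hW => ?_⟩
  rw [tens_dg]
  exact h _ (IsProd.prod X W hX hW)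

lemma ag_var {f : X ⟶ Y} {g : Y ⟶ X} (h1 : f ≫ g = 𝟙 X) (h2 : g ≫ f = 𝟙 Y) (hd : X.dim = Y.dim)
    {p : C.A (Y.prod Y)} (hp : Pr p) (h : AG H δ N Y p) :
    AG H δ N X (C.pull (prodMap f f) p) := by
  refine ⟨sym_var hδ h1 h2 hd hp h.1, fun W hW => ?_⟩
  have h3 := sym_var (f := prodMap f (𝟙 W)) (g := prodMap g (𝟙 W)) hδ
    (by rw [prodMap_comp, h1, Category.comp_id, prodMap_id])
    (by rw [prodMap_comp, h2, Category.comp_id, prodMap_id])
    (by rw [dim_prod, dim_prod, hd]) (pr_tens hp (pr_dg W)) (h.2 W hW)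
  rw [pull_prodMap_tens, prodMap_id, C.pull_id] at h3
  exact h3

lemma ag_step {b : C.A (B.prod B)} (hb : IsMiddle C H B b) {q : C.A (X.prod X)} (hq : Pr q)
    (h : AG H δ N X q) : AG H δ N (X.prod B) (tens C q b) := by
  have hB : IsProd C H B := IsProd.base B b hb
  obtain ⟨m, a, a', t, hm⟩ := exists_mid hb
  refine ⟨sym_step hδ hm hq (h.2 B hB) h.1, fun W hW => ?_⟩
  have h1 : Sym H δ N ((X.prod W).prod B) (tens C (tens C q (dg C W)) (dg C B)) := by
    have h2 := sym_var (f := aI X W B) (g := aJ X W B) hδ aI_aJ aJ_aI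
      (by simp only [dim_prod]; omega) (pr_tens hq (pr_dg (W.prod B)))
      (h.2 (W.prod B) (IsProd.prod W B hW hB))
    rw [← tens_dg, pull_aI_tens] at h2
    exact h2
  have h3 := sym_step hδ hm (pr_tens hq (pr_dg W)) h1 (h.2 W hW)
  have h4 := sym_var (f := ex X B W) (g := ex X W B) hδ (ex_ex X B W) (ex_ex X W B)
    (by simp only [dim_prod]; omega) (pr_tens (pr_tens hq (pr_dg W)) (mid_pr hm)) h3
  rw [pull_ex_tens] at h4
  exact h4

omit hδ in
lemma prim_pr {p : C.A (P.prod P)} (hp : IsPrim C H P p) : Pr p := by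
  induction hp with
  | base B b h =>
    obtain ⟨m, a, a', t, hm⟩ := exists_mid h
    exact mid_pr hm
  | prod P P' p p' _ _ ih ih' => exact pr_tens ih ih'

lemma ag_prim {p : C.A (P.prod P)} (hp : IsPrim C H P p) : ∀ (X : 𝒱.Obj) (q : C.A (X.prod X)),
    Pr q → AG H δ N X q → AG H δ N (X.prod P) (tens C q p) := by
  induction hp with
  | base B b h => exact fun X q hq hA => ag_step hδ h hq hA
  | prod P P' p p' hp hp' ih ih' =>
    intro X q hq hA
    have h1 := ih' (X.prod P) (tens C q p) (pr_tens hq (prim_pr hp)) (ih X q hq hA)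
    have h2 := ag_var (f := aJ X P P') (g := aI X P P') hδ aJ_aI aI_aJ
      (by simp only [dim_prod]; omega) (pr_tens (pr_tens hq (prim_pr hp)) (prim_pr hp')) h1
    have h3 : C.pull (prodMap (aJ X P P') (aJ X P P')) (tens C (tens C q p) p') =
        tens C q (tens C p p') := by
      rw [← pull_aI_tens q p p', ← C.pull_comp, prodMap_comp, aJ_aI, prodMap_id, C.pull_id]
    rw [h3] at h2
    exact h2

lemma ag_of_prim (h : ∀ W, IsProd C H W → Sym H δ N W (dg C W)) {p : C.A (P.prod P)}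
    (hp : IsPrim C H P p) : AG H δ N P p := by
  induction hp with
  | base B b hb =>
    have hB : IsProd C H B := IsProd.base B b hb
    obtain ⟨m, a, a', t, hm⟩ := exists_mid hb
    refine ⟨fun j hj hj' => ?_, fun W hW => ?_⟩
    · obtain ⟨h1, h2, h4⟩ := h B hB j hj hj'
      obtain ⟨h3, -, -⟩ := h B hB ((B.dim : ℤ) + 1 - j) hj' (by linarith)
      rw [δ_mid hδ hm h1] at h2
      rw [δ_mid hδ hm h1, δ_mid hδ hm h3] at h4
      exact ⟨(fn_mid hm j).1 h1, h2, h4⟩
    · have h1 := (ag_step hδ hb (pr_dg W) (ag_of_prod h hW)).1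
      have h2 := sym_var (f := sw B W) (g := sw W B) hδ sw_sw sw_sw
        (by simp only [dim_prod]; omega) (pr_tens (pr_dg W) (mid_pr hm)) h1
      rw [pull_sw_tens] at h2
      exact h2
  | prod P P' p p' hp hp' ih _ => exact ag_prim hδ hp' P p (prim_pr hp) ih

end AG

end Pool.Agent.Q187.RK
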