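import Pool.Agent.Q187.RK.Act
import Pool.Agent.Q187.AJ.Conv

/-!
# The theorems in terms of the definitions of the statements
-/

open CategoryTheory AlgebraicGeometry

universe u v w

namespace Pool.Agent.Q187.RK

open Pool.Agent.H914 Pool.Agent.H914.VarClass Pool.Agent.H914.VarClass.Obj Pool.Agent.W492.BB
  Pool.Agent.W550.Corr Pool.Agent.TH133

set_option linter.unusedSectionVars false
set_option linter.unusedVariables false

variable {k : Type u} [Field k] {𝒱 : VarClass k}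

variable {C : TheoryData.{u, v, 0} 𝒱 ℚ} [hC : IsChowProj C] {K : Type w} [Field K]
  {H : WeilTheoryData.{u, v, w} C K} [hH : IsWeilProj H] {X Y Z W B P M L : 𝒱.Obj}
  {e : ∀ X : 𝒱.Obj, C.A (X.prod X) → ℤ → ℤ}

include hC in
lemma line_conv {o : C.A L} (h1 : L.dim = 1) (h2 : AJS.DegreeOne C o) (h3 : AJS.odd C o = 0) :
    IsLine C L o := by
  obtain ⟨h4, h5⟩ := (AJS.degreeOne_of_curve h1).1 h2
  refine ⟨h1, h4, h5, ?_⟩
  have h6 : dg C L - C.ext o 1 - C.ext 1 o = 0 := h3
  rw [sub_sub, sub_eq_zero] at h6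
  exact h6.symm

include hC hH

lemma primForm_iff (he : IsOrder C H e) :
    (∀ N : ℤ, PrimForm H (D H e) N) ↔
      ∀ (P : 𝒱.Obj) (p : C.A (P.prod P)) (j : ℕ), IsPrim C H P p → RankFormula C H e p j := by
  constructor
  · intro h P p j hp
    exact rankFormula_iff.2 (full_of_primForm (isDefect_D he) (h P.dim) hp le_rfl j)
  · intro h N P p hp j hj hj'
    by_cases h0 : j ≤ 0
    · refine ⟨fun _ => homTriv_out p (Or.inl h0), fun heq => ?_⟩
      have hb := homTriv_out (H := H) p (Or.inl h0 : j ≤ 0 ∨ (P.dim : ℤ) < j)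
      exact ⟨fn_of_bot hb, (isDefect_D he).zero P p j (prim_pr hp) (kills_out (Or.inl h0)) hb⟩
    · have h1 := h P p j.toNat hp
      have e1 : ((j.toNat : ℕ) : ℤ) = j := Int.toNat_of_nonneg (by omega)
      rw [e1] at h1
      refine ⟨fun hne => ?_, fun _ => rankFormula_iff.1 h1⟩
      obtain ⟨h2, h3⟩ := h1
      rw [he.kills P p j (prim_pr hp) (prim_kills hp _ (by omega))] at h3
      have : Module.Finite ℚ (homTriv C H p j) := h2
      exact Submodule.finrank_eq_zero.1 (by exact_mod_cast h3)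

lemma mid_of_nat {N : ℤ} (h : ∀ (X : 𝒱.Obj) (i : ℕ), IsProd C H X → X.dim + 1 = 2 * i →
    (i : ℤ) ≤ N → RankFormula C H e (dg C X) i) :
    ∀ X, IsProd C H X → ∀ i : ℤ, i ≤ N → (X.dim : ℤ) = 2 * i - 1 →
      RankFormula C H e (dg C X) i := by
  intro X hX i hi hd
  have h1 : ((i.toNat : ℕ) : ℤ) = i := Int.toNat_of_nonneg (by omega)
  have h2 := h X i.toNat hX (by omega) (by omega)
  rwa [h1] at h2

theorem middle_suffice (he : IsOrder C H e)
    (hL : ∃ (L : 𝒱.Obj) (o : C.A L), L.dim = 1 ∧ AJS.DegreeOne C o ∧ AJS.odd C o = 0) :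
    (∀ N : ℕ, (∀ (X : 𝒱.Obj) (i : ℕ), IsProd C H X → X.dim + 1 = 2 * i → i ≤ N →
        RankFormula C H e (AJS.diag C X) i) →
      ∀ (X : 𝒱.Obj) (j : ℕ), IsProd C H X → X.dim ≤ N → RankFormula C H e (AJS.diag C X) j) ∧
    List.TFAE [
      ∀ (X : 𝒱.Obj) (j : ℕ), IsProd C H X → RankFormula C H e (AJS.diag C X) j,
      ∀ (X : 𝒱.Obj) (i : ℕ), IsProd C H X → X.dim + 1 = 2 * i →
        RankFormula C H e (AJS.diag C X) i,
      ∀ (P : 𝒱.Obj) (p : C.A (P.prod P)) (j : ℕ), IsPrim C H P p → RankFormula C H e p j] := by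
  obtain ⟨L, o, h1, h2, h3⟩ := hL
  have hline := line_conv h1 h2 h3
  constructor
  · intro N h X j hX hd
    exact (main he hline N (mid_of_nat fun X i hX hd hi => h X i hX hd (by exact_mod_cast hi))).2 X
      hX (by exact_mod_cast hd) j
  · tfae_have 1 → 2 := fun h X i hX _ => h X i hX
    tfae_have 2 → 3 := fun h => (primForm_iff he).1 fun N =>
      (main he hline N (mid_of_nat fun X i hX hd _ => h X i hX hd)).1
    tfae_have 3 → 1 := fun h X j hX =>
      rankFormula_iff.2 (full_of_prim (isDefect_D he) ((primForm_iff he).2 h X.dim) hX le_rfl j)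
    tfae_finish

/-- Correspondences between dominated varieties. -/
lemma act_eq_zero_hull (hV : ∀ (P : 𝒱.Obj) (p : C.A (P.prod P)), IsPrim C H P p → ∀ j : ℤ,
    2 * j ≠ P.dim + 1 → homTriv C H p j = ⊥) (hX : AJS.Dominated C (IsProd C H) X)
    (hY : AJS.Dominated C (IsProd C H) Y) {j i : ℕ} {Γ : C.A (X.prod Y)}
    (hΓ : AJS.Maps C j i Γ) (hk : Kills H Γ (2 * j - 1)) {z : C.A X}
    (hz : C.Deg j z) (h0 : H.cl z = 0) : C.act Γ z = 0 := by
  obtain ⟨Z, hZ, f, g, hf, hg, hfg⟩ := hX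
  obtain ⟨W, hW, f', g', hf', hg', hfg'⟩ := hY
  have hf0 : f ∈ C.gr (X.prod Z) (X.dim + 0) := Y148.BB.gr_congr (by push_cast; ring) hf
  have hg0 : g ∈ C.gr (Z.prod X) (Z.dim + 0) := Y148.BB.gr_congr (by push_cast; ring) hg
  have hf0' : f' ∈ C.gr (Y.prod W) (Y.dim + 0) := Y148.BB.gr_congr (by push_cast; ring) hf'
  have hΓ0 : Γ ∈ C.gr (X.prod Y) (X.dim + ((i : ℤ) - j)) := Y148.BB.gr_congr (by ring) hΓ
  have hfz : C.act f z ∈ C.gr Z j := by
    have h1 := act_mem' C hf0 hz
    rwa [add_zero] at h1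
  have h1 : C.act (C.comp g (C.comp Γ f')) (C.act f z) = 0 := by
    refine act_eq_zero (i := i) (j := j) hV hZ hW ?_ ?_ hfz ?_
    · have h2 := comp_mem C hΓ0 hf0'
      rw [add_zero] at h2
      have h3 := comp_mem C hg0 h2
      exact Y148.BB.gr_congr (by ring) h3
    · intro a ha
      rw [TH133.actH_comp, TH133.actH_comp]
      have h2 := actH_mem H hg0 ha
      have e1 : (2 : ℤ) * j - 1 + 2 * 0 = 2 * j - 1 := by ring
      rw [e1] at h2
      rw [hk _ h2, TheoryData.act_map_zero]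
    · rw [cl_act H, h0, TheoryData.act_map_zero]
  rw [C.act_comp, C.act_comp, hfg] at h1
  rw [← hfg' (C.act Γ z), h1, TheoryData.act_map_zero]

lemma finite_hull (h : ∀ (X : 𝒱.Obj) (j : ℕ), IsProd C H X → Fn H X (dg C X) j)
    (hX : AJS.Dominated C (IsProd C H) X) (j : ℕ) : Fn H X (dg C X) j := by
  obtain ⟨Z, hZ, f, g, hf, hg, hfg⟩ := hX
  have hf0 : f ∈ C.gr (X.prod Z) (X.dim + 0) := Y148.BB.gr_congr (by push_cast; ring) hf
  have : Module.Finite ℚ (homTriv C H (dg C Z) (j : ℤ)) := h Z j hZ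
  let φ : homTriv C H (dg C X) (j : ℤ) →ₗ[ℚ] homTriv C H (dg C Z) (j : ℤ) :=
    { toFun := fun z => ⟨C.act f z.1, by
        refine ⟨?_, ?_, act_dg C _⟩
        · have h1 := act_mem' C hf0 z.2.1
          rwa [add_zero] at h1
        · have h2 : H.cl z.1 = 0 := z.2.2.1
          change H.cl (C.act f z.1) = 0
          rw [cl_act H, h2, TheoryData.act_map_zero]⟩
      map_add' := fun a b => Subtype.ext (act_map_add C f _ _)
      map_smul' := fun r a => Subtype.ext (act_map_smul C f _ _) }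
  refine Module.Finite.of_injective φ ?_
  intro a b hab
  have h1 : C.act f a.1 = C.act f b.1 := congrArg Subtype.val hab
  exact Subtype.ext (by rw [← hfg a.1, ← hfg b.1, h1])

theorem act_through_cohomology (he : IsOrder C H e)
    (hL : ∃ (L : 𝒱.Obj) (o : C.A L), L.dim = 1 ∧ AJS.DegreeOne C o ∧ AJS.odd C o = 0) :
    ((∀ (X : 𝒱.Obj) (m : ℕ), IsProd C H X → RankFormula C H e (AJS.diag C X) m) ↔
      (∀ X Y : 𝒱.Obj, AJS.Dominated C (IsProd C H) X → AJS.Dominated C (IsProd C H) Y →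
        ∀ (m l : ℕ) (Γ : C.A (X.prod Y)), AJS.Maps C m l Γ → Kills H Γ (2 * m - 1) →
          ∀ z, C.Deg m z → AJS.Triv C H z → C.act Γ z = 0) ∧
      (∀ (P : 𝒱.Obj) (p : C.A (P.prod P)) (m : ℕ), IsPrim C H P p → P.dim + 1 = 2 * m →
        RankFormula C H e p m)) ∧
    ((∀ (X : 𝒱.Obj) (m : ℕ), IsProd C H X → RankFormula C H e (AJS.diag C X) m) →
      ∀ (X : 𝒱.Obj) (m : ℕ), AJS.Dominated C (IsProd C H) X →
        Module.Finite ℚ (homTriv C H (AJS.diag C X) m)) := by
  have htfae := (middle_suffice he hL).2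
  constructor
  · constructor
    · intro h
      have h1 := (primForm_iff he).2 ((htfae.out 0 2 rfl rfl).1 h)
      have hV : ∀ (P : 𝒱.Obj) (p : C.A (P.prod P)), IsPrim C H P p → ∀ j : ℤ,
          2 * j ≠ P.dim + 1 → homTriv C H p j = ⊥ := by
        intro P p hp j hj
        exact (h1 (max j (P.dim + 1 - j)) P p hp j (le_max_left _ _) (le_max_right _ _)).1 hj
      refine ⟨fun X Y hX hY m l Γ hΓ hk z hz h0 => act_eq_zero_hull hV hX hY hΓ hk hz h0,
        fun P p m hp _ => (htfae.out 0 2 rfl rfl).1 h P p m hp⟩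
    · rintro ⟨h1, h2⟩
      refine (htfae.out 0 2 rfl rfl).2 fun P p m hp => ?_
      by_cases hm : P.dim + 1 = 2 * m
      · exact h2 P p m hp hm
      · have hP : AJS.Dominated C (IsProd C H) P := by
          refine ⟨P, ?_, dg C P, dg C P, ?_, ?_, fun x => by rw [act_dg, act_dg]⟩
          · clear h1 h2 hm
            induction hp with
            | base B b hb => exact IsProd.base B b hb
            | prod P P' p p' _ _ ih ih' => exact IsProd.prod P P' ih ih'
          · exact Y148.BB.gr_congr (by push_cast; ring) (dg_mem C P)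
          · exact Y148.BB.gr_congr (by push_cast; ring) (dg_mem C P)
        have hpr := prim_pr hp
        have hkl := prim_kills hp (2 * (m : ℤ) - 1) (by omega)
        have h3 : homTriv C H p m = ⊥ := by
          rw [eq_bot_iff]
          rintro z ⟨hz, h0, hpz⟩
          rw [Submodule.mem_bot, ← hpz]
          exact h1 P P hP hP m m p (Y148.BB.gr_congr (by ring) hpr.1) hkl z hz h0
        rw [rankFormula_iff]
        exact ⟨fn_of_bot h3, (isDefect_D he).zero P p m hpr hkl h3⟩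
  · intro h X m hX
    exact finite_hull (fun X j hX => (rankFormula_iff.1 (h X j hX)).1) hX m

end Pool.Agent.Q187.RK
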