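import Pool.Agent.Q187.RK.Main

/-!
# Correspondences act on homologically trivial cycles through cohomology
-/

open CategoryTheory AlgebraicGeometry

universe u v w

namespace Pool.Agent.Q187.RK

open Pool.Agent.H914 Pool.Agent.H914.VarClass Pool.Agent.H914.VarClass.Obj Pool.Agent.W492.BB
  Pool.Agent.W550.Corr Pool.Agent.TH133 Pool.Agent.Y148.BB Pool.Agent.Q187.AJ

set_option linter.unusedSectionVars false
set_option linter.unusedVariables false

variable {k : Type u} [Field k] {𝒱 : VarClass k}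

variable {C : TheoryData.{u, v, 0} 𝒱 ℚ} [hC : IsChowProj C] {K : Type w} [Field K]
  {H : WeilTheoryData.{u, v, w} C K} [hH : IsWeilProj H] {X Y Z W B P M L : 𝒱.Obj}
  {e : ∀ X : 𝒱.Obj, C.A (X.prod X) → ℤ → ℤ}

/-- The motive `(X, q)` and its products with the middle parts have homologically trivial cycles
only where a motive of weight `n` should have them. -/
def VC (H : WeilTheoryData.{u, v, w} C K) (X : 𝒱.Obj) (q : C.A (X.prod X)) (n : ℤ) : Prop :=
  Pr q ∧ (∀ j : ℤ, 2 * j ≠ n + 1 → homTriv C H q j = ⊥) ∧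
    ∀ (P : 𝒱.Obj) (p : C.A (P.prod P)), IsPrim C H P p → ∀ j : ℤ, 2 * j ≠ n + P.dim + 1 →
      homTriv C H (tens C q p) j = ⊥

/-- A decomposition of the motive of `W` into motives of weights `n s`. -/
structure Dec (H : WeilTheoryData.{u, v, w} C K) (W : 𝒱.Obj) {S : Type} [Fintype S]
    (ρ : S → C.A (W.prod W)) (n : S → ℤ) : Prop where
  orth : Orth ρ
  sum : ∑ s, ρ s = dg C W
  kills : ∀ s (m : ℤ), m ≠ n s → Kills H (ρ s) m
  refl : ∀ s, ∃ s', tp C (ρ s) = ρ s' ∧ n s' = 2 * W.dim - n s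
  vc0 : ∀ s, VC H W (ρ s) (n s)
  vc : ∀ (X : 𝒱.Obj) (q : C.A (X.prod X)) (m : ℤ), VC H X q m → ∀ s,
    VC H (X.prod W) (tens C q (ρ s)) (m + n s)

include hC hH

lemma vc_var {f : X ⟶ Y} {g : Y ⟶ X} (h1 : f ≫ g = 𝟙 X) (h2 : g ≫ f = 𝟙 Y) (hd : X.dim = Y.dim)
    {n : ℤ} {p : C.A (Y.prod Y)} (h : VC H Y p n) : VC H X (C.pull (prodMap f f) p) n := by
  refine ⟨(pull_iso_data h1 h2 hd h.1).1, fun j hj => bot_var h1 h2 hd h.1 (h.2.1 j hj),
    fun P r hr j hj => ?_⟩
  have h4 := bot_var (f := prodMap f (𝟙 P)) (g := prodMap g (𝟙 P))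
    (by rw [prodMap_comp, h1, Category.comp_id, prodMap_id])
    (by rw [prodMap_comp, h2, Category.comp_id, prodMap_id])
    (by rw [dim_prod, dim_prod, hd]) (pr_tens h.1 (prim_pr hr)) (h.2.2 P r hr j hj)
  rw [pull_prodMap_tens, prodMap_id, C.pull_id] at h4
  exact h4

section base

variable {b : C.A (B.prod B)} {κ : Type} [Fintype κ] [DecidableEq κ] {a a' : κ ⊕ κ → C.A B}
  {t : κ ⊕ κ → ℕ}

/-- The projectors of `B`. -/
noncomputable def bρ (b : C.A (B.prod B)) (a a' : κ ⊕ κ → C.A B) : Option (κ ⊕ κ) → C.A (B.prod B)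
  | none => b
  | some i => C.ext (a i) (a' i)

/-- Their weights. -/
def bn (B : 𝒱.Obj) (t : κ ⊕ κ → ℕ) : Option (κ ⊕ κ) → ℤ
  | none => B.dim
  | some i => 2 * (t i : ℤ)

lemma dec_base (hV : ∀ (P : 𝒱.Obj) (p : C.A (P.prod P)), IsPrim C H P p → ∀ j : ℤ,
    2 * j ≠ P.dim + 1 → homTriv C H p j = ⊥) (hb : IsMiddle C H B b) (h : Mid H B b a a' t) :
    Dec H B (bρ b a a') (bn B t) := by
  obtain ⟨h1, h2, h3⟩ := compl_orth (mid_orth h) h.sum
  have ho := mid_orth h
  have h4 : ∀ i, C.comp (∑ i, C.ext (a i) (a' i)) (C.ext (a i) (a' i)) = C.ext (a i) (a' i) := by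
    intro i
    rw [sum_comp, Finset.sum_eq_single i]
    · exact (ho.1 i).2
    · intro i' _ hi
      exact ho.2 i' i hi
    · intro hi
      exact absurd (Finset.mem_univ i) hi
  have h5 : ∀ i, C.comp (C.ext (a i) (a' i)) (∑ i, C.ext (a i) (a' i)) = C.ext (a i) (a' i) := by
    intro i
    rw [comp_sum, Finset.sum_eq_single i]
    · exact (ho.1 i).2
    · intro i' _ hi
      exact ho.2 i i' hi.symm
    · intro hi
      exact absurd (Finset.mem_univ i) hi
  have h6 : ∀ i, C.comp b (C.ext (a i) (a' i)) = 0 := by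
    intro i
    rw [← h4 i, ← comp_assoc C, h2, zero_comp]
  have h7 : ∀ i, C.comp (C.ext (a i) (a' i)) b = 0 := by
    intro i
    rw [← h5 i, comp_assoc C, h3, comp_zero]
  have hpb : IsPrim C H B b := IsPrim.base B b hb
  refine ⟨⟨?_, ?_⟩, ?_, ?_, ?_, ?_, ?_⟩
  · rintro (_ | i)
    · exact h1
    · exact ho.1 i
  · rintro (_ | i) (_ | i') hii
    · exact absurd rfl hii
    · exact h6 i'
    · exact h7 i
    · exact ho.2 i i' fun h8 => hii (congrArg some h8)
  · rw [Fintype.sum_option]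
    exact h.sum
  · rintro (_ | i) m hm
    · exact h.kills m hm
    · intro y hy
      exact act_ext_ne (h.deg_a' i) (h.deg_a i) hm hy
  · rintro (_ | (s | s))
    · refine ⟨none, ?_, ?_⟩
      · have e1 : b = dg C B - ∑ i, C.ext (a i) (a' i) := eq_sub_of_add_eq h.sum
        have e2 : tp C (∑ i, C.ext (a i) (a' i)) = ∑ i, C.ext (a i) (a' i) := by
          rw [Fintype.sum_sum_type, tp_add, tp_sum, tp_sum, add_comm]
          congr 1
          · refine Finset.sum_congr rfl fun s _ => ?_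
            rw [tp_ext, (h.dual s).1, (h.dual s).2]
          · refine Finset.sum_congr rfl fun s _ => ?_
            rw [tp_ext, (h.dual s).1, (h.dual s).2]
        change tp C b = b
        rw [e1, tp_sub, tp_dg, e2]
      · change (B.dim : ℤ) = 2 * B.dim - B.dim
        ring
    · refine ⟨some (Sum.inr s), ?_, ?_⟩
      · change tp C (C.ext (a (Sum.inl s)) (a' (Sum.inl s))) = C.ext (a (Sum.inr s)) (a' (Sum.inr s))
        rw [tp_ext, (h.dual s).1, (h.dual s).2]
      · have := h.refl s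
        change 2 * (t (Sum.inr s) : ℤ) = 2 * B.dim - 2 * (t (Sum.inl s) : ℤ)
        omega
    · refine ⟨some (Sum.inl s), ?_, ?_⟩
      · change tp C (C.ext (a (Sum.inr s)) (a' (Sum.inr s))) = C.ext (a (Sum.inl s)) (a' (Sum.inl s))
        rw [tp_ext, (h.dual s).1, (h.dual s).2]
      · have := h.refl s
        change 2 * (t (Sum.inl s) : ℤ) = 2 * B.dim - 2 * (t (Sum.inr s) : ℤ)
        omega
  · rintro (_ | i)
    · refine ⟨h1, fun j hj => hV B b hpb j hj, fun P p hp j hj => ?_⟩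
      refine hV _ _ (IsPrim.prod B P b p hpb hp) j ?_
      rw [dim_prod]
      push_cast
      exact hj
    · refine ⟨ho.1 i, fun j hj => tate_bot h i j, fun P p hp j hj => ?_⟩
      have hj' : 2 * j ≠ 2 * (t i : ℤ) + P.dim + 1 := hj
      have h8 := bot_twist h (prim_pr hp) i (j := j) (hV P p hp _ (by omega))
      have h9 := bot_var (f := sw B P) (g := sw P B) sw_sw sw_sw
        (by simp only [dim_prod]; omega) (pr_tens (prim_pr hp) (ho.1 i)) h8
      rw [pull_sw_tens] at h9
      exact h9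
  · rintro X q m hq (_ | i)
    · refine ⟨pr_tens hq.1 h1, fun j hj => ?_, fun P p hp j hj => ?_⟩
      · exact hq.2.2 B b hpb j hj
      · have hj' : 2 * j ≠ m + B.dim + P.dim + 1 := hj
        have h8 := hq.2.2 (B.prod P) (tens C b p) (IsPrim.prod B P b p hpb hp) j
          (by rw [dim_prod]; push_cast; omega)
        have h9 := bot_var (f := aI X B P) (g := aJ X B P) aI_aJ aJ_aI
          (by simp only [dim_prod]; omega) (pr_tens hq.1 (pr_tens h1 (prim_pr hp))) h8
        rw [pull_aI_tens] at h9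
        exact h9
    · refine ⟨pr_tens hq.1 (ho.1 i), fun j hj => ?_, fun P p hp j hj => ?_⟩
      · have hj' : 2 * j ≠ m + 2 * (t i : ℤ) + 1 := hj
        exact bot_twist h hq.1 i (hq.2.1 _ (by omega))
      · have hj' : 2 * j ≠ m + 2 * (t i : ℤ) + P.dim + 1 := hj
        have h8 := bot_twist h (pr_tens hq.1 (prim_pr hp)) i (j := j)
          (hq.2.2 P p hp _ (by omega))
        have h9 := bot_var (f := ex X B P) (g := ex X P B) (ex_ex X B P) (ex_ex X P B)
          (by simp only [dim_prod]; omega) (pr_tens (pr_tens hq.1 (prim_pr hp)) (ho.1 i)) h8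
        rw [pull_ex_tens] at h9
        exact h9

end base

/-- All the products have decompositions. -/
lemma exists_dec (hV : ∀ (P : 𝒱.Obj) (p : C.A (P.prod P)), IsPrim C H P p → ∀ j : ℤ,
    2 * j ≠ P.dim + 1 → homTriv C H p j = ⊥) (hW : IsProd C H W) :
    ∃ (S : Type) (_ : Fintype S) (ρ : S → C.A (W.prod W)) (n : S → ℤ), Dec H W ρ n := by
  induction hW with
  | base B b hb =>
    obtain ⟨m, a, a', t, hm⟩ := exists_mid hb
    exact ⟨_, inferInstance, _, _, dec_base hV hb hm⟩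
  | prod W W' _ _ ih ih' =>
    obtain ⟨S, hS, ρ, n, h⟩ := ih
    obtain ⟨S', hS', ρ', n', h'⟩ := ih'
    refine ⟨S × S', inferInstance, fun s => tens C (ρ s.1) (ρ' s.2), fun s => n s.1 + n' s.2,
      ⟨fun s => pr_tens (h.orth.1 _) (h'.orth.1 _), fun s s' hs => ?_⟩, ?_, fun s m hm => ?_,
      fun s => ?_, fun s => h'.vc W (ρ s.1) _ (h.vc0 s.1) s.2, fun X q m hq s => ?_⟩
    · rw [tens_comp']
      by_cases h1 : s.1 = s'.1
      · have h2 : s.2 ≠ s'.2 := fun h3 => hs (Prod.ext h1 h3)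
        rw [h'.orth.2 _ _ h2, tens_zero_right]
      · rw [h.orth.2 _ _ h1, tens_zero_left]
    · rw [Fintype.sum_prod_type, ← tens_dg, ← h.sum, ← h'.sum]
      have e1 : ∀ (x : C.A (W.prod W)), ∑ y, tens C x (ρ' y) = tens C x (∑ y, ρ' y) := fun x =>
        (map_sum (tensL x) ρ' Finset.univ).symm
      simp only [e1]
      exact (map_sum ((tensL (C := C) (X := W) (Y := W) (Z := W') (W := W')).flip
        (∑ y, ρ' y)) ρ Finset.univ).symm
    · exact kills_tens (h.kills s.1) (h'.kills s.2) m hm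
    · obtain ⟨s1, h1, h2⟩ := h.refl s.1
      obtain ⟨s2, h3, h4⟩ := h'.refl s.2
      refine ⟨(s1, s2), by rw [tp_tens, h1, h3], ?_⟩
      simp only [dim_prod]
      push_cast
      omega
    · have h1 := h'.vc (X.prod W) _ _ (h.vc X q m hq s.1) s.2
      have h2 := vc_var (f := aJ X W W') (g := aI X W W') aJ_aI aI_aJ
        (by simp only [dim_prod]; omega) h1
      have h3 : C.pull (prodMap (aJ X W W') (aJ X W W')) (tens C (tens C q (ρ s.1)) (ρ' s.2)) =
          tens C q (tens C (ρ s.1) (ρ' s.2)) := by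
        rw [← pull_aI_tens q (ρ s.1) (ρ' s.2), ← C.pull_comp, prodMap_comp, aJ_aI, prodMap_id,
          C.pull_id]
      rw [h3, add_assoc] at h2
      exact h2

/-- **Correspondences acting as zero on `H^(2j-1)` act as zero on `CH^j_0`.** -/
theorem act_eq_zero (hV : ∀ (P : 𝒱.Obj) (p : C.A (P.prod P)), IsPrim C H P p → ∀ j : ℤ,
    2 * j ≠ P.dim + 1 → homTriv C H p j = ⊥) (hX : IsProd C H X) (hY : IsProd C H Y) {i j : ℤ}
    {Γ : C.A (X.prod Y)} (hΓ : C.Deg (X.dim + i - j) Γ) (hk : Kills H Γ (2 * j - 1)) {z : C.A X}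
    (hz : C.Deg j z) (h0 : H.cl z = 0) : C.act Γ z = 0 := by
  obtain ⟨S, _, ρ, n, hρ⟩ := exists_dec hV hX
  obtain ⟨S', _, τ, n', hτ⟩ := exists_dec hV hY
  have h1 : z = ∑ s, C.act (ρ s) z := by rw [← act_sum, hρ.sum, act_dg]
  have h2 : ∀ y : C.A Y, y = ∑ s, C.act (τ s) y := fun y => by rw [← act_sum, hτ.sum, act_dg]
  have mem : ∀ {V : 𝒱.Obj} {r : C.A (V.prod V)} {l : ℤ} {y : C.A V}, Pr r → C.Deg l y →
      H.cl y = 0 → C.act r y ∈ homTriv C H r l := by
    intro V r l y hr hy hy0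
    refine ⟨act_mem0 C hr.1 hy, ?_, ?_⟩
    · change H.cl (C.act r y) = 0
      rw [cl_act H, hy0, TheoryData.act_map_zero]
    · rw [← C.act_comp, hr.2]
  rw [h1, act_map_sum]
  refine Finset.sum_eq_zero fun s _ => ?_
  rw [h2 (C.act Γ (C.act (ρ s) z))]
  refine Finset.sum_eq_zero fun s' _ => ?_
  have hps := hρ.orth.1 s
  have hps' := hτ.orth.1 s'
  by_cases hs : 2 * j ≠ n s + 1
  · have h3 := mem hps hz h0
    rw [(hρ.vc0 s).2.1 j hs, Submodule.mem_bot] at h3
    rw [h3, TheoryData.act_map_zero, TheoryData.act_map_zero]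
  push Not at hs
  have hΓ' : Γ ∈ C.gr (X.prod Y) (X.dim + (i - j)) := gr_congr (by ring) hΓ
  have h4 : C.Deg i (C.act Γ (C.act (ρ s) z)) := by
    have h5 := act_mem' C hΓ' (act_mem0 C hps.1 hz)
    rw [add_sub_cancel] at h5
    exact h5
  have h5 : H.cl (C.act Γ (C.act (ρ s) z)) = 0 := by
    rw [cl_act H, cl_act H, h0, TheoryData.act_map_zero, TheoryData.act_map_zero]
  by_cases hs' : 2 * i ≠ n' s' + 1
  · have h3 := mem hps' h4 h5
    rw [(hτ.vc0 s').2.1 i hs', Submodule.mem_bot] at h3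
    exact h3
  push Not at hs'
  -- the correspondence between the pieces is zero
  have hγ : C.comp (C.comp (ρ s) Γ) (τ s') = 0 := by
    obtain ⟨s1, h6, h7⟩ := hρ.refl s
    have hvc := hτ.vc X (ρ s1) (n s1) (hρ.vc0 s1) s'
    have h8 : C.comp (C.comp (ρ s) Γ) (τ s') ∈
        homTriv C H (tens C (ρ s1) (τ s')) (X.dim + (i - j)) := by
      refine ⟨?_, ?_, ?_⟩
      · have h9 := comp_mem C (e := 0) (e' := i - j) (by rw [add_zero]; exact hps.1) hΓ'
        have h10 := comp_mem C (e := 0 + (i - j)) (e' := 0) h9 (by rw [add_zero]; exact hps'.1)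
        rw [zero_add, add_zero] at h10
        exact h10
      · change H.cl (C.comp (C.comp (ρ s) Γ) (τ s')) = 0
        apply hom_zero_of_act H
        have key : (H.actL (H.cl (C.comp (C.comp (ρ s) Γ) (τ s'))) : H.A X →ₗ[K] H.A Y) = 0 := by
          apply ext_gr H
          intro m y hy
          rw [TheoryData.actL_apply, LinearMap.zero_apply, TH133.actH_comp, TH133.actH_comp]
          by_cases hm : m = n s
          · have h11 : H.Deg (2 * j - 1) (H.act (H.cl (ρ s)) y) := by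
              have h12 := actH_mem H (e := 0) (by rw [add_zero]; exact hps.1) hy
              have e1 : m + 2 * 0 = 2 * j - 1 := by omega
              rw [e1] at h12
              exact h12
            rw [hk _ h11, TheoryData.act_map_zero]
          · rw [hρ.kills s m hm y hy, TheoryData.act_map_zero, TheoryData.act_map_zero]
        exact fun y => LinearMap.congr_fun key y
      · rw [← h6, act_tens C (ch_comm C), tp_tp, ← comp_assoc C (ρ s) (C.comp (ρ s) Γ),
          ← comp_assoc C (ρ s) (ρ s), hps.2, comp_assoc C _ (τ s') (τ s'), hps'.2]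
    rw [hvc.2.1 _ (by omega), Submodule.mem_bot] at h8
    exact h8
  rw [← C.act_comp, ← C.act_comp, ← comp_assoc C, hγ, TheoryData.act_zero]

end Pool.Agent.Q187.RK
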