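import Pool.Agent.Q187.RK.Defs
import Pool.Agent.Q187.AJ.Assoc

/-!
# Additivity of the spaces of homologically trivial cycles
-/

open CategoryTheory AlgebraicGeometry

universe u v w

namespace Pool.Agent.Q187.RK

open Pool.Agent.H914 Pool.Agent.H914.VarClass Pool.Agent.H914.VarClass.Obj Pool.Agent.W492.BB
  Pool.Agent.W550.Corr Pool.Agent.TH133 Pool.Agent.Y148.BB Pool.Agent.Q187.AJ

set_option linter.unusedSectionVars false
set_option linter.unusedVariables false

variable {k : Type u} [Field k] {𝒱 : VarClass k}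

variable {C : TheoryData.{u, v, 0} 𝒱 ℚ} [hC : IsChowProj C] {K : Type w} [Field K]
  {H : WeilTheoryData.{u, v, w} C K} [hH : IsWeilProj H] {X Y Z W B P : 𝒱.Obj}
  {e : ∀ X : 𝒱.Obj, C.A (X.prod X) → ℤ → ℤ}

omit hC hH in
lemma mem_homTriv {p : C.A (X.prod X)} {j : ℤ} {z : C.A X} :
    z ∈ homTriv C H p j ↔ C.Deg j z ∧ H.cl z = 0 ∧ C.act p z = z := Iff.rfl

/-- A projector. -/
abbrev Pr (p : C.A (X.prod X)) : Prop := C.Deg X.dim p ∧ C.comp p p = p

include hC hH

/-- Isomorphic motives. -/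
noncomputable def equivIso {p : C.A (X.prod X)} {q : C.A (Y.prod Y)} {c : ℤ} {f : C.A (X.prod Y)}
    {g : C.A (Y.prod X)} (hf : C.Deg (X.dim + c) f) (hg : C.Deg (Y.dim - c) g)
    (h1 : C.comp f g = p) (h2 : C.comp g f = q) (j : ℤ) :
    homTriv C H p j ≃ₗ[ℚ] homTriv C H q (j + c) where
  toFun z := ⟨C.act f z.1, by
    refine ⟨act_mem' C hf z.2.1, ?_, ?_⟩
    · have h3 : H.cl z.1 = 0 := z.2.2.1
      change H.cl (C.act f z.1) = 0
      rw [cl_act H, h3, TheoryData.act_map_zero]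
    · have h4 : C.act p z.1 = z.1 := z.2.2.2
      rw [← h2, C.act_comp, ← C.act_comp f g, h1, h4]⟩
  invFun z := ⟨C.act g z.1, by
    refine ⟨?_, ?_, ?_⟩
    · have h3 := act_mem' C (e := -c) (by rw [← sub_eq_add_neg]; exact hg) z.2.1
      rw [add_neg_cancel_right] at h3
      exact h3
    · have h3 : H.cl z.1 = 0 := z.2.2.1
      change H.cl (C.act g z.1) = 0
      rw [cl_act H, h3, TheoryData.act_map_zero]
    · have h4 : C.act q z.1 = z.1 := z.2.2.2
      rw [← h1, C.act_comp, ← C.act_comp g f, h2, h4]⟩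
  map_add' a b := by
    apply Subtype.ext
    exact act_map_add C f _ _
  map_smul' r a := by
    apply Subtype.ext
    exact act_map_smul C f _ _
  left_inv z := by
    apply Subtype.ext
    have h4 : C.act p z.1 = z.1 := z.2.2.2
    change C.act g (C.act f z.1) = z.1
    rw [← C.act_comp, h1, h4]
  right_inv z := by
    apply Subtype.ext
    have h4 : C.act q z.1 = z.1 := z.2.2.2
    change C.act f (C.act g z.1) = z.1
    rw [← C.act_comp, h2, h4]

/-- Direct sums of motives. -/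
noncomputable def equivSum {p q : C.A (X.prod X)} (hp : Pr p) (hq : Pr q)
    (h1 : C.comp p q = 0) (h2 : C.comp q p = 0) (j : ℤ) :
    homTriv C H (p + q) j ≃ₗ[ℚ] homTriv C H p j × homTriv C H q j where
  toFun z := (⟨C.act p z.1, by
    have h3 : H.cl z.1 = 0 := z.2.2.1
    refine ⟨act_mem0 C hp.1 z.2.1, ?_, ?_⟩
    · change H.cl (C.act p z.1) = 0
      rw [cl_act H, h3, TheoryData.act_map_zero]
    · rw [← C.act_comp, hp.2]⟩, ⟨C.act q z.1, by
    have h3 : H.cl z.1 = 0 := z.2.2.1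
    refine ⟨act_mem0 C hq.1 z.2.1, ?_, ?_⟩
    · change H.cl (C.act q z.1) = 0
      rw [cl_act H, h3, TheoryData.act_map_zero]
    · rw [← C.act_comp, hq.2]⟩)
  invFun z := ⟨z.1.1 + z.2.1, by
    have h3 : H.cl z.1.1 = 0 := z.1.2.2.1
    have h4 : H.cl z.2.1 = 0 := z.2.2.2.1
    have h5 : C.act p z.1.1 = z.1.1 := z.1.2.2.2
    have h6 : C.act q z.2.1 = z.2.1 := z.2.2.2.2
    refine ⟨Submodule.add_mem _ z.1.2.1 z.2.2.1, ?_, ?_⟩
    · change H.cl (z.1.1 + z.2.1) = 0
      rw [map_add, h3, h4, add_zero]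
    · have h7 : C.act p z.2.1 = 0 := by rw [← h6, ← C.act_comp, h2, TheoryData.act_zero]
      have h8 : C.act q z.1.1 = 0 := by rw [← h5, ← C.act_comp, h1, TheoryData.act_zero]
      rw [C.act_add, act_map_add, act_map_add, h5, h6, h7, h8, add_zero, zero_add]⟩
  map_add' a b := by
    apply Prod.ext
    · apply Subtype.ext
      exact act_map_add C p _ _
    · apply Subtype.ext
      exact act_map_add C q _ _
  map_smul' r a := by
    apply Prod.ext
    · apply Subtype.ext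
      exact act_map_smul C p _ _
    · apply Subtype.ext
      exact act_map_smul C q _ _
  left_inv z := by
    apply Subtype.ext
    have h4 : C.act (p + q) z.1 = z.1 := z.2.2.2
    change C.act p z.1 + C.act q z.1 = z.1
    rw [← C.act_add, h4]
  right_inv z := by
    have h5 : C.act p z.1.1 = z.1.1 := z.1.2.2.2
    have h6 : C.act q z.2.1 = z.2.1 := z.2.2.2.2
    have h7 : C.act p z.2.1 = 0 := by rw [← h6, ← C.act_comp, h2, TheoryData.act_zero]
    have h8 : C.act q z.1.1 = 0 := by rw [← h5, ← C.act_comp, h1, TheoryData.act_zero]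
    apply Prod.ext
    · apply Subtype.ext
      change C.act p (z.1.1 + z.2.1) = z.1.1
      rw [act_map_add, h5, h7, add_zero]
    · apply Subtype.ext
      change C.act q (z.1.1 + z.2.1) = z.2.1
      rw [act_map_add, h6, h8, zero_add]

omit hH in
lemma homTriv_zero (j : ℤ) : homTriv C H (0 : C.A (X.prod X)) j = ⊥ := by
  rw [eq_bot_iff]
  rintro z ⟨_, _, h⟩
  rw [TheoryData.act_zero] at h
  exact (Submodule.mem_bot _).2 h.symm

/-! ### The defect of the rank formula -/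

/-- The difference `dim CH^j(X, p)_0 - e X p j`. -/
noncomputable def D (H : WeilTheoryData.{u, v, w} C K) (e : ∀ X : 𝒱.Obj, C.A (X.prod X) → ℤ → ℤ)
    (X : 𝒱.Obj) (p : C.A (X.prod X)) (j : ℤ) : ℤ :=
  (Module.finrank ℚ (homTriv C H p j) : ℤ) - e X p j

/-- The space `CH^j(X, p)_0` is finite-dimensional. -/
def Fn (H : WeilTheoryData.{u, v, w} C K) (X : 𝒱.Obj) (p : C.A (X.prod X)) (j : ℤ) : Prop :=
  Module.Finite ℚ (homTriv C H p j)

omit hC hH in
lemma rankFormula_iff {p : C.A (X.prod X)} {j : ℤ} :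
    RankFormula C H e p j ↔ Fn H X p j ∧ D H e X p j = 0 := by
  rw [D, sub_eq_zero]
  exact Iff.rfl

/-- An invariant of motives with values in an abelian group, which is additive on motives with
finite-dimensional spaces `CH^j(X, p)_0` and zero on motives without homologically trivial cycles
of codimension `j` and cohomology in degree `2 j - 1`. -/
structure IsDefect (H : WeilTheoryData.{u, v, w} C K) {A : Type*} [AddCommGroup A]
    (δ : ∀ X : 𝒱.Obj, C.A (X.prod X) → ℤ → A) : Prop where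
  add : ∀ (X : 𝒱.Obj) (p q : C.A (X.prod X)) (j : ℤ), Pr p → Pr q →
    C.comp p q = 0 → C.comp q p = 0 → Fn H X p j → Fn H X q j → δ X (p + q) j = δ X p j + δ X q j
  iso : ∀ (X Y : 𝒱.Obj) (p : C.A (X.prod X)) (q : C.A (Y.prod Y)) (c j : ℤ) (f : C.A (X.prod Y))
    (g : C.A (Y.prod X)), Pr p → Pr q → C.Deg (X.dim + c) f →
    C.Deg (Y.dim - c) g → C.comp f g = p → C.comp g f = q → δ X p j = δ Y q (j + c)
  zero : ∀ (X : 𝒱.Obj) (p : C.A (X.prod X)) (j : ℤ), Pr p → Kills H p (2 * j - 1) →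
    homTriv C H p j = ⊥ → δ X p j = 0

lemma isDefect_D (he : IsOrder C H e) : IsDefect H (D H e) where
  add X p q j hp hq h1 h2 hfp hfq := by
    have : Module.Finite ℚ (homTriv C H p j) := hfp
    have : Module.Finite ℚ (homTriv C H q j) := hfq
    rw [D, D, D, (equivSum (H := H) hp hq h1 h2 j).finrank_eq, Module.finrank_prod,
      he.add X p q j hp hq h1 h2]
    push_cast
    ring
  iso X Y p q c j f g hp hq hf hg h1 h2 := by
    rw [D, D, (equivIso (H := H) hf hg h1 h2 j).finrank_eq,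
      he.iso X Y p q c j f g hp hq hf hg h1 h2]
  zero X p j hp hk h0 := by
    rw [D, h0, he.kills X p j hp hk, finrank_bot]
    rfl

variable {A : Type*} [AddCommGroup A] {δ : ∀ X : 𝒱.Obj, C.A (X.prod X) → ℤ → A}

section iso

variable {p : C.A (X.prod X)} {q : C.A (Y.prod Y)} {c : ℤ} {f : C.A (X.prod Y)}
    {g : C.A (Y.prod X)}

lemma fn_iso (hf : C.Deg (X.dim + c) f) (hg : C.Deg (Y.dim - c) g)
    (h1 : C.comp f g = p) (h2 : C.comp g f = q) (j : ℤ) : Fn H X p j ↔ Fn H Y q (j + c) := by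
  constructor
  · intro h
    have : Module.Finite ℚ (homTriv C H p j) := h
    exact Module.Finite.equiv (equivIso hf hg h1 h2 j)
  · intro h
    have : Module.Finite ℚ (homTriv C H q (j + c)) := h
    exact Module.Finite.equiv (equivIso hf hg h1 h2 j).symm

lemma bot_iso (hf : C.Deg (X.dim + c) f) (hg : C.Deg (Y.dim - c) g)
    (h1 : C.comp f g = p) (h2 : C.comp g f = q) {j : ℤ} (h : homTriv C H q (j + c) = ⊥) :
    homTriv C H p j = ⊥ := by
  rw [eq_bot_iff]
  intro z hz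
  have key : ∀ x : C.A Y, x ∈ homTriv C H q (j + c) → x = 0 := by
    intro x hx
    rw [h] at hx
    exact (Submodule.mem_bot _).1 hx
  have h3 : (equivIso hf hg h1 h2 j ⟨z, hz⟩ : homTriv C H q (j + c)).1 = 0 :=
    key _ (equivIso hf hg h1 h2 j ⟨z, hz⟩ : homTriv C H q (j + c)).2
  have h5 : equivIso hf hg h1 h2 j ⟨z, hz⟩ = (0 : homTriv C H q (j + c)) := Subtype.ext h3
  have h6 := (LinearEquiv.map_eq_zero_iff _).1 h5
  exact (Submodule.mem_bot _).2 (congrArg Subtype.val h6)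

end iso

section add

variable {p q : C.A (X.prod X)}

lemma fn_add (hp : Pr p) (hq : Pr q) (h1 : C.comp p q = 0) (h2 : C.comp q p = 0) (j : ℤ) :
    Fn H X (p + q) j ↔ Fn H X p j ∧ Fn H X q j := by
  constructor
  · intro h
    have : Module.Finite ℚ (homTriv C H (p + q) j) := h
    have h3 : Module.Finite ℚ (homTriv C H p j × homTriv C H q j) :=
      Module.Finite.equiv (equivSum hp hq h1 h2 j)
    exact ⟨Module.Finite.of_surjective (LinearMap.fst ℚ (homTriv C H p j) (homTriv C H q j))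
        LinearMap.fst_surjective,
      Module.Finite.of_surjective (LinearMap.snd ℚ (homTriv C H p j) (homTriv C H q j))
        LinearMap.snd_surjective⟩
  · rintro ⟨h3, h4⟩
    have : Module.Finite ℚ (homTriv C H p j) := h3
    have : Module.Finite ℚ (homTriv C H q j) := h4
    exact Module.Finite.equiv (equivSum hp hq h1 h2 j).symm

lemma fn_zero (j : ℤ) : Fn H X 0 j := by
  rw [Fn, homTriv_zero]
  infer_instance

lemma fn_of_bot {j : ℤ} (h : homTriv C H p j = ⊥) : Fn H X p j := by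
  rw [Fn, h]
  infer_instance

omit hC hH in
lemma pr_zero [IsChowProj C] : Pr (0 : C.A (X.prod X)) := ⟨Submodule.zero_mem _, zero_comp C _⟩

omit hC hH in
lemma kills_zero [IsChowProj C] [IsWeilProj H] (m : ℤ) : Kills H (0 : C.A (X.prod Y)) m := by
  intro a _
  rw [map_zero, TheoryData.act_zero]

variable (hδ : IsDefect H δ)
include hδ

lemma δ_zero (j : ℤ) : δ X 0 j = 0 := hδ.zero X 0 j pr_zero (kills_zero _) (homTriv_zero j)

end add

section sums

variable {ι : Type*} {p : ι → C.A (X.prod X)}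

/-- A family of mutually orthogonal projectors. -/
def Orth (p : ι → C.A (X.prod X)) : Prop :=
  (∀ i, Pr (p i)) ∧ ∀ i i', i ≠ i' → C.comp (p i) (p i') = 0

omit hH in
lemma orth_sum (hp : Orth p) (s : Finset ι) : Pr (∑ i ∈ s, p i) ∧
    ∀ i ∉ s, C.comp (∑ i' ∈ s, p i') (p i) = 0 ∧ C.comp (p i) (∑ i' ∈ s, p i') = 0 := by
  classical
  refine ⟨⟨Submodule.sum_mem _ fun i _ => (hp.1 i).1, ?_⟩, fun i hi => ⟨?_, ?_⟩⟩
  · rw [sum_comp]
    refine Finset.sum_congr rfl fun i hi => ?_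
    rw [comp_sum, Finset.sum_eq_single i]
    · exact (hp.1 i).2
    · intro i' _ h
      exact hp.2 i i' h.symm
    · intro h
      exact absurd hi h
  · rw [sum_comp]
    exact Finset.sum_eq_zero fun i' hi' => hp.2 i' i fun h => hi (h ▸ hi')
  · rw [comp_sum]
    exact Finset.sum_eq_zero fun i' hi' => hp.2 i i' fun h => hi (h ▸ hi')

lemma fn_sum (hp : Orth p) (s : Finset ι) (j : ℤ) :
    Fn H X (∑ i ∈ s, p i) j ↔ ∀ i ∈ s, Fn H X (p i) j := by
  classical
  induction s using Finset.induction_on with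
  | empty => simp [fn_zero]
  | insert a s ha ih =>
    obtain ⟨h1, h2⟩ := orth_sum hp s
    rw [Finset.sum_insert ha, fn_add (hp.1 a) h1 (h2 a ha).2 (h2 a ha).1, ih]
    simp

lemma δ_sum (hδ : IsDefect H δ) (hp : Orth p) (s : Finset ι) {j : ℤ}
    (hf : ∀ i ∈ s, Fn H X (p i) j) : δ X (∑ i ∈ s, p i) j = ∑ i ∈ s, δ X (p i) j := by
  classical
  induction s using Finset.induction_on with
  | empty => simp [δ_zero hδ]
  | insert a s ha ih =>
    obtain ⟨h1, h2⟩ := orth_sum hp s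
    have h3 : ∀ i ∈ s, Fn H X (p i) j := fun i hi => hf i (Finset.mem_insert_of_mem hi)
    rw [Finset.sum_insert ha, Finset.sum_insert ha, hδ.add X _ _ j (hp.1 a) h1 (h2 a ha).2
      (h2 a ha).1 (hf a (Finset.mem_insert_self a s)) ((fn_sum hp s j).2 h3), ih h3]

end sums

/-! ### Isomorphisms of varieties -/

section var

variable {f : X ⟶ Y} {g : Y ⟶ X}

omit hH in
lemma cog_graph (h1 : f ≫ g = 𝟙 X) (h2 : g ≫ f = 𝟙 Y) :
    C.comp (tp C (C.graph f)) (C.graph f) = dg C Y := by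
  have e1 : Obj.lift (𝟙 X) f ≫ sw X Y = Obj.lift f (𝟙 X) := by
    apply prod_ext <;> simp [sw]
  have e2 : Obj.lift f (𝟙 X) ≫ prodMap (𝟙 Y) f = f ≫ Obj.lift (𝟙 Y) (𝟙 Y) := by
    apply prod_ext <;> simp
  have e3 : C.push f 1 = 1 := hC.push_one f g h1 h2
  rw [comp_graph, tp_eq_push]
  change C.push (prodMap (𝟙 Y) f) (C.push (sw X Y) (C.push (Obj.lift (𝟙 X) f) 1)) = _
  rw [← C.push_comp (Obj.lift (𝟙 X) f), e1, ← C.push_comp, e2, C.push_comp, e3]
  rfl

omit hH in
lemma graph_mem (f : X ⟶ Y) : C.graph f ∈ C.gr (X.prod Y) Y.dim := by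
  have h := wg_mem f (C.one_mem X)
  rw [zero_add] at h
  exact h

omit hH in
/-- The projector transported along an isomorphism. -/
lemma pull_iso_data (h1 : f ≫ g = 𝟙 X) (h2 : g ≫ f = 𝟙 Y) (hd : X.dim = Y.dim)
    {p : C.A (Y.prod Y)} (hp : Pr p) :
    Pr (C.pull (prodMap f f) p) ∧ ∃ (F : C.A (X.prod Y)) (G : C.A (Y.prod X)),
      C.Deg (X.dim + 0) F ∧ C.Deg (Y.dim - 0) G ∧
        C.comp F G = C.pull (prodMap f f) p ∧ C.comp G F = p := by
  have hF : C.comp (C.graph f) p ∈ C.gr (X.prod Y) (X.dim + 0) := by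
    have h3 : C.graph f ∈ C.gr (X.prod Y) (X.dim + 0) := by
      rw [add_zero, hd]; exact graph_mem f
    have h4 := comp_mem C (e := 0) (e' := 0) h3 (by rw [add_zero]; exact hp.1)
    rw [add_zero (0 : ℤ)] at h4
    exact h4
  have hG : C.comp p (tp C (C.graph f)) ∈ C.gr (Y.prod X) (Y.dim - 0) := by
    have h3 : tp C (C.graph f) ∈ C.gr (Y.prod X) (Y.dim + 0) := by
      rw [add_zero]; exact tp_mem C (graph_mem f)
    have h4 := comp_mem C (e := 0) (e' := 0) (by rw [add_zero]; exact hp.1) h3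
    rw [add_zero (0 : ℤ), add_zero] at h4
    rw [sub_zero]
    exact h4
  have e1 : C.comp (C.comp (C.graph f) p) (C.comp p (tp C (C.graph f))) =
      C.pull (prodMap f f) p := by
    have h3 := wg_comp_comp f f (1 : C.A X) (1 : C.A X) p
    have h4 : C.ext (1 : C.A X) (1 : C.A X) = 1 := by
      rw [TheoryData.ext, map_one, map_one, one_mul]
    rw [h4, mul_one] at h3
    rw [comp_assoc C, ← comp_assoc C p p, hp.2]
    exact h3
  have e2 : C.comp (C.comp p (tp C (C.graph f))) (C.comp (C.graph f) p) = p := by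
    rw [comp_assoc C, ← comp_assoc C (tp C _), cog_graph h1 h2, dg_comp, hp.2]
  refine ⟨⟨?_, ?_⟩, _, _, hF, hG, e1, e2⟩
  · have h3 := C.pull_mem (prodMap f f) hp.1
    rw [hd]
    exact h3
  · rw [← e1, comp_assoc C (C.comp (C.graph f) p), ← comp_assoc C (C.comp p (tp C (C.graph f))) _ _,
      e2, ← comp_assoc C p p, hp.2]

lemma fn_var (h1 : f ≫ g = 𝟙 X) (h2 : g ≫ f = 𝟙 Y) (hd : X.dim = Y.dim)
    {p : C.A (Y.prod Y)} (hp : Pr p) (j : ℤ) :
    Fn H X (C.pull (prodMap f f) p) j ↔ Fn H Y p j := by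
  obtain ⟨-, F, G, hF, hG, h3, h4⟩ := pull_iso_data h1 h2 hd hp
  rw [fn_iso hF hG h3 h4, add_zero]

lemma bot_var (h1 : f ≫ g = 𝟙 X) (h2 : g ≫ f = 𝟙 Y) (hd : X.dim = Y.dim)
    {p : C.A (Y.prod Y)} (hp : Pr p) {j : ℤ} (h : homTriv C H p j = ⊥) :
    homTriv C H (C.pull (prodMap f f) p) j = ⊥ := by
  obtain ⟨-, F, G, hF, hG, h3, h4⟩ := pull_iso_data h1 h2 hd hp
  refine bot_iso hF hG h3 h4 ?_
  rwa [add_zero]

lemma δ_var (hδ : IsDefect H δ) (h1 : f ≫ g = 𝟙 X) (h2 : g ≫ f = 𝟙 Y) (hd : X.dim = Y.dim)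
    {p : C.A (Y.prod Y)} (hp : Pr p) (j : ℤ) :
    δ X (C.pull (prodMap f f) p) j = δ Y p j := by
  obtain ⟨h0, F, G, hF, hG, h3, h4⟩ := pull_iso_data h1 h2 hd hp
  rw [hδ.iso X Y _ p 0 j F G h0 hp hF hG h3 h4, add_zero]

end var

end Pool.Agent.Q187.RK
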