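import Pool.Agent.Q187.AJ.Stmt

/-!
# Ranks of the groups of homologically trivial cycles: definitions
-/

open CategoryTheory AlgebraicGeometry

universe u v w

namespace Pool.Agent.Q187.RK

open Pool.Agent.H914 Pool.Agent.H914.VarClass Pool.Agent.H914.VarClass.Obj Pool.Agent.W492.BB
  Pool.Agent.W550.Corr Pool.Agent.TH133 Pool.Agent.Q187.AJS

variable {k : Type u} [Field k] {𝒱 : VarClass k} (C : TheoryData.{u, v, 0} 𝒱 ℚ) {X Y Z W : 𝒱.Obj}

/-- The self-correspondence `p` of `X` is a projector: an idempotent of degree zero. The pair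
`(X, p)` is a (Chow) motive. -/
def IsProjector (p : C.A (X.prod X)) : Prop := C.Deg X.dim p ∧ comp C p p = p

variable {K : Type w} [Field K] (H : WeilTheoryData.{u, v, w} C K)

/-- The space `CH^j(X, p)_0` of the homologically trivial classes `z` of codimension `j` on `X`
with `p_* z = z`. -/
def homTriv (p : C.A (X.prod X)) (j : ℤ) : Submodule ℚ (C.A X) where
  carrier := {z | C.Deg j z ∧ Triv C H z ∧ C.act p z = z}
  zero_mem' := by
    refine ⟨Submodule.zero_mem _, map_zero _, ?_⟩
    simp [TheoryData.act]
  add_mem' := by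
    rintro a b ⟨h1, h2, h3⟩ ⟨h4, h5, h6⟩
    refine ⟨Submodule.add_mem _ h1 h4, ?_, ?_⟩
    · have h2' : H.cl a = 0 := h2
      have h5' : H.cl b = 0 := h5
      change H.cl (a + b) = 0
      rw [map_add, h2', h5', add_zero]
    · have e : C.act p (a + b) = C.act p a + C.act p b := by
        simp only [TheoryData.act, map_add, mul_add]
      rw [e, h3, h6]
  smul_mem' := by
    rintro q a ⟨h1, h2, h3⟩
    refine ⟨Submodule.smul_mem _ q h1, ?_, ?_⟩
    · have h2' : H.cl a = 0 := h2
      change H.cl (q • a) = 0
      rw [Algebra.smul_def, map_mul, h2', mul_zero]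
    · have e : C.act p (q • a) = q • C.act p a := by
        simp only [TheoryData.act, map_smul, mul_smul_comm]
      rw [e, h3]

/-- The formal properties of the function `e X p j = ord_{s=j} L(p_* H^(2j-1)(X), s)` on motives
over a global field: it is additive; isomorphic motives have the same orders, where an isomorphism
from `(X, p)` to the `c`-fold twist of `(Y, q)` (a pair of correspondences of codimensions
`dim X + c` and `dim Y - c`) identifies `p_* H^(2j-1)(X)` with `q_* H^(2(j+c)-1)(Y)(c)`, whose
L-function at `s = j` is that of `q_* H^(2(j+c)-1)(Y)` at `s = j + c`; and it is zero if `p` acts as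
zero on `H^(2j-1)(X)`. -/
structure IsOrder (e : ∀ X : 𝒱.Obj, C.A (X.prod X) → ℤ → ℤ) : Prop where
  add : ∀ (X : 𝒱.Obj) (p q : C.A (X.prod X)) (j : ℤ), IsProjector C p → IsProjector C q →
    comp C p q = 0 → comp C q p = 0 → e X (p + q) j = e X p j + e X q j
  iso : ∀ (X Y : 𝒱.Obj) (p : C.A (X.prod X)) (q : C.A (Y.prod Y)) (c j : ℤ) (f : C.A (X.prod Y))
    (g : C.A (Y.prod X)), IsProjector C p → IsProjector C q → C.Deg (X.dim + c) f →
    C.Deg (Y.dim - c) g → comp C f g = p → comp C g f = q → e X p j = e Y q (j + c)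
  kills : ∀ (X : 𝒱.Obj) (p : C.A (X.prod X)) (j : ℤ), IsProjector C p → Kills H p (2 * j - 1) →
    e X p j = 0

/-- The formula `dim CH^j(X, p)_0 = e X p j`, the left hand side being finite. -/
def RankFormula (e : ∀ X : 𝒱.Obj, C.A (X.prod X) → ℤ → ℤ) (p : C.A (X.prod X)) (j : ℤ) : Prop :=
  Module.Finite ℚ (homTriv C H p j) ∧ (Module.finrank ℚ (homTriv C H p j) : ℤ) = e X p j

/-- The motive of `B` is the direct sum of Tate motives and of the motive `(B, b)`, which is
concentrated in the middle degree: there are classes `u s` of codimensions `c s < dim B / 2` and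
`v s` of codimensions `dim B - c s` with intersection numbers `(u s, v t) = δ_{st}` such that
`b = Δ - ∑ (u s × v s + v s × u s)` acts as zero on `H^m(B)` for all `m ≠ dim B`.
(This means that `H^m(B)` is spanned by classes of algebraic cycles for all `m ≠ dim B`.) -/
structure IsMiddle (B : 𝒱.Obj) (b : C.A (B.prod B)) : Prop where
  exists_dual : ∃ (m : ℕ) (c : Fin m → ℕ) (x y : Fin m → C.A B),
    (∀ s, 2 * c s < B.dim ∧ C.Deg (c s) (x s) ∧ C.Deg ((B.dim : ℤ) - c s) (y s)) ∧
    (∀ s t, HasDegree C (C.mul (x s) (y t)) (if s = t then 1 else 0)) ∧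
    b + ∑ s, (cross C (x s) (y s) + cross C (y s) (x s)) = diag C B
  kills : ∀ m : ℤ, m ≠ B.dim → Kills H b m

/-- The variety is a product, in any order and with any bracketing, of varieties whose cohomology
outside the middle degree is spanned by classes of algebraic cycles. -/
inductive IsProd : 𝒱.Obj → Prop
  | base (B : 𝒱.Obj) (b : C.A (B.prod B)) (h : IsMiddle C H B b) : IsProd B
  | prod (P P' : 𝒱.Obj) (h : IsProd P) (h' : IsProd P') : IsProd (P.prod P')

/-- `IsPrim P p`: the motive `(P, p)` is a product, with any bracketing, of motives `(B, b)`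
concentrated in the middle degree, where `B` has no other cohomology except classes of cycles. -/
inductive IsPrim : (P : 𝒱.Obj) → C.A (P.prod P) → Prop
  | base (B : 𝒱.Obj) (b : C.A (B.prod B)) (h : IsMiddle C H B b) : IsPrim B b
  | prod (P P' : 𝒱.Obj) (p : C.A (P.prod P)) (p' : C.A (P'.prod P')) (h : IsPrim P p)
      (h' : IsPrim P' p') : IsPrim (P.prod P') (tens C p p')

end Pool.Agent.Q187.RK
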