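import Pool.Agent.Q187.RK.LineDefs
import Pool.Agent.Q187.RK.Final

/-!
# The averaged rank formula for all varieties
-/

open CategoryTheory AlgebraicGeometry

universe u v w

namespace Pool.Agent.Q187.RK

open Pool.Agent.H914 Pool.Agent.H914.VarClass Pool.Agent.H914.VarClass.Obj Pool.Agent.W492.BB
  Pool.Agent.W550.Corr Pool.Agent.TH133

set_option linter.unusedSectionVars false
set_option linter.unusedVariables false

variable {k : Type u} [Field k] {𝒱 : VarClass k}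

variable {C : TheoryData.{u, v, 0} 𝒱 ℚ} [hC : IsChowProj C] {K : Type w} [Field K]
  {H : WeilTheoryData.{u, v, w} C K} [hH : IsWeilProj H] {X Y Z W B P M L : 𝒱.Obj}
  {A : Type*} [AddCommGroup A]

/-- The combinatorial core: a condition `fn X j` and a function `d X j` with
`d (X × L) j = d X j + d X (j - 1)`. -/
theorem core {𝓢 : 𝒱.Obj → Prop} {fn : 𝒱.Obj → ℤ → Prop} {d : 𝒱.Obj → ℤ → A} {N : ℤ}
    (hdL : L.dim = 1) (hS : ∀ X, 𝓢 X → 𝓢 (X.prod L))
    (hfn : ∀ X j, 𝓢 X → (fn (X.prod L) j ↔ fn X j ∧ fn X (j - 1)))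
    (hd : ∀ X j, 𝓢 X → fn (X.prod L) j → d (X.prod L) j = d X j + d X (j - 1))
    (hmid : ∀ X, 𝓢 X → ∀ i : ℤ, i ≤ N → (X.dim : ℤ) = 2 * i - 1 → fn X i ∧ d X i = 0) :
    ∀ X, 𝓢 X → ∀ j : ℤ, j ≤ N → (X.dim : ℤ) + 1 - j ≤ N →
      fn X j ∧ d X j + d X (X.dim + 1 - j) = 0 := by
  have hfin : ∀ (s : ℕ) (X : 𝒱.Obj), 𝓢 X → ∀ j : ℤ, j ≤ N → (X.dim : ℤ) + 1 - j ≤ N →
      (2 * j - (X.dim + 1)).natAbs = s → fn X j := by
    intro s
    induction s with
    | zero =>
      intro X hX j hj hj' hs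
      exact (hmid X hX j hj (by omega)).1
    | succ s ih =>
      intro X hX j hj hj' hs
      have hdim : ((X.prod L).dim : ℤ) = X.dim + 1 := by rw [dim_prod, hdL]; push_cast; ring
      rcases lt_or_ge (X.dim + 1 : ℤ) (2 * j) with h | h
      · have h1 := ih (X.prod L) (hS X hX) j hj (by rw [hdim]; omega) (by rw [hdim]; omega)
        exact ((hfn X j hX).1 h1).1
      · have h1 := ih (X.prod L) (hS X hX) (j + 1) (by omega) (by rw [hdim]; omega)
          (by rw [hdim]; omega)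
        have h2 := ((hfn X (j + 1) hX).1 h1).2
        rwa [add_sub_cancel_right] at h2
  have hsum : ∀ (s : ℕ) (X : 𝒱.Obj), 𝓢 X → ∀ j : ℤ, j ≤ N → (X.dim : ℤ) + 1 - j ≤ N →
      (2 * j - (X.dim + 1)).natAbs ≤ s → d X j + d X (X.dim + 1 - j) = 0 := by
    intro s
    induction s with
    | zero =>
      intro X hX j hj hj' hs
      have e1 : (X.dim : ℤ) + 1 - j = j := by omega
      rw [e1, (hmid X hX j hj (by omega)).2, add_zero]
    | succ s ih =>
      have key : ∀ X, 𝓢 X → ∀ j : ℤ, j ≤ N → (X.dim : ℤ) + 1 - j ≤ N →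
          2 * j - (X.dim + 1) = s + 1 → d X j + d X (X.dim + 1 - j) = 0 := by
        intro X hX j hj hj' hs
        have hdim : ((X.prod L).dim : ℤ) = X.dim + 1 := by rw [dim_prod, hdL]; push_cast; ring
        have h2 : fn (X.prod L) j :=
          hfin _ _ (hS X hX) j hj (by rw [hdim]; omega) rfl
        rcases Nat.eq_zero_or_pos s with h0 | h0
        · have h1 := (hmid (X.prod L) (hS X hX) j hj (by rw [hdim]; omega)).2
          rw [hd X j hX h2] at h1
          have e3 : j - 1 = (X.dim : ℤ) + 1 - j := by omega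
          rw [e3] at h1
          exact h1
        · have h1 := ih (X.prod L) (hS X hX) j hj (by rw [hdim]; omega) (by rw [hdim]; omega)
          rw [hdim] at h1
          have h3 : fn (X.prod L) ((X.dim : ℤ) + 1 + 1 - j) :=
            hfin _ _ (hS X hX) _ (by omega) (by rw [hdim]; omega) rfl
          rw [hd X j hX h2, hd X _ hX h3] at h1
          have e1 : (X.dim : ℤ) + 1 + 1 - j - 1 = X.dim + 1 - j := by ring
          have e2 : (X.dim : ℤ) + 1 + 1 - j = X.dim + 1 - (j - 1) := by ring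
          rw [e1, e2] at h1
          have h4 := ih X hX (j - 1) (by omega) (by omega) (by omega)
          rw [add_comm (d X ((X.dim : ℤ) + 1 - (j - 1))), add_add_add_comm, h4, add_zero] at h1
          exact h1
      intro X hX j hj hj' hs
      rcases Nat.lt_or_ge (2 * j - (X.dim + 1)).natAbs (s + 1) with h | h
      · exact ih X hX j hj hj' (by omega)
      · rcases lt_or_ge (X.dim + 1 : ℤ) (2 * j) with h1 | h1
        · exact key X hX j hj hj' (by omega)
        · have h2 := key X hX ((X.dim : ℤ) + 1 - j) hj' (by omega) (by omega)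
          have e4 : (X.dim : ℤ) + 1 - (X.dim + 1 - j) = j := by ring
          rw [e4, add_comm] at h2
          exact h2
  exact fun X hX j hj hj' => ⟨hfin _ X hX j hj hj' rfl, hsum _ X hX j hj hj' le_rfl⟩

include hC in
lemma cycles0_eq (X : 𝒱.Obj) (j : ℤ) : cycles0 C H X j = homTriv C H (dg C X) j := by
  ext z
  constructor
  · rintro ⟨h1, h2⟩
    exact ⟨h1, h2, act_dg C z⟩
  · rintro ⟨h1, h2, -⟩
    exact ⟨h1, h2⟩

include hC hH

lemma isFin_line {o : C.A L} (h : IsLine C L o) (X : 𝒱.Obj) (j : ℤ) :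
    IsFin C H (X.prod L) j ↔ IsFin C H X j ∧ IsFin C H X (j - 1) := by
  have h1 := fnL (H := H) h (pr_dg X) j
  rw [tens_dg] at h1
  rw [IsFin, IsFin, IsFin, cycles0_eq, cycles0_eq, cycles0_eq]
  exact h1

lemma rk_line {o : C.A L} (h : IsLine C L o) (X : 𝒱.Obj) {j : ℤ} (hf : IsFin C H (X.prod L) j) :
    rk C H (X.prod L) j = rk C H X j + rk C H X (j - 1) := by
  have he : IsOrder C H (fun _ _ _ => 0) := ⟨fun _ _ _ _ _ _ _ _ => (add_zero 0).symm,
    fun _ _ _ _ _ _ _ _ _ _ _ _ _ _ => rfl, fun _ _ _ _ _ => rfl⟩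
  have h1 : Fn H (X.prod L) (tens C (dg C X) (dg C L)) j := by
    rw [tens_dg, Fn, ← cycles0_eq]
    exact hf
  have h2 := δL (isDefect_D he) h (pr_dg X) h1
  rw [tens_dg] at h2
  simp only [D, sub_zero] at h2
  rw [rk, rk, rk, cycles0_eq, cycles0_eq, cycles0_eq]
  exact h2

theorem averaged (hL : IsProjectiveLine C L) {r : 𝒱.Obj → ℤ → ℤ} (hr : IsOrderFunction L r)
    {N : ℤ} (h : ∀ (X : 𝒱.Obj) (i : ℤ), i ≤ N → (X.dim : ℤ) = 2 * i - 1 →
      IsFin C H X i ∧ rk C H X i = r X i) (X : 𝒱.Obj) {j : ℤ} (hj : j ≤ N)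
    (hj' : (X.dim : ℤ) + 1 - j ≤ N) :
    IsFin C H X j ∧ rk C H X j + rk C H X (X.dim + 1 - j) = 2 * r X j := by
  obtain ⟨o, h1, h2, h3⟩ := hL
  have hline := line_conv h1 h2 h3
  have h4 := core (A := ℤ) (𝓢 := fun _ => True) (fn := IsFin C H)
    (d := fun X j => rk C H X j - r X j) (N := N) h1 (fun _ _ => trivial)
    (fun X j _ => isFin_line hline X j)
    (fun X j _ hf => by rw [rk_line hline X hf, hr.prod]; ring)
    (fun X _ i hi hd => ⟨(h X i hi hd).1, by rw [(h X i hi hd).2, sub_self]⟩) X trivial j hj hj'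
  refine ⟨h4.1, ?_⟩
  have h5 := h4.2
  rw [hr.symm] at h5
  linarith

theorem averaged_iff (hL : IsProjectiveLine C L) {r : 𝒱.Obj → ℤ → ℤ}
    (hr : IsOrderFunction L r) :
    (∀ N : ℕ, (∀ (X : 𝒱.Obj) (i : ℕ), X.dim + 1 = 2 * i → i ≤ N →
        IsFin C H X i ∧ rk C H X i = r X i) →
      ∀ (X : 𝒱.Obj) (j j' : ℕ), j + j' = X.dim + 1 → j ≤ N → j' ≤ N →
        IsFin C H X j ∧ rk C H X j + rk C H X j' = r X j + r X j') ∧
    ((∀ (X : 𝒱.Obj) (i : ℕ), X.dim + 1 = 2 * i → IsFin C H X i ∧ rk C H X i = r X i) ↔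
      ∀ (X : 𝒱.Obj) (j j' : ℕ), j + j' = X.dim + 1 →
        IsFin C H X j ∧ rk C H X j + rk C H X j' = r X j + r X j') ∧
    ((∀ (X : 𝒱.Obj) (j j' : ℕ), j + j' = X.dim + 1 → IsFin C H X j → rk C H X j = rk C H X j') →
      ((∀ (X : 𝒱.Obj) (i : ℕ), X.dim + 1 = 2 * i → IsFin C H X i ∧ rk C H X i = r X i) ↔
        ∀ (X : 𝒱.Obj) (j : ℕ), IsFin C H X j ∧ rk C H X j = r X j)) := by
  have hnat : ∀ {N : ℤ}, (∀ (X : 𝒱.Obj) (i : ℕ), X.dim + 1 = 2 * i → (i : ℤ) ≤ N →
      IsFin C H X i ∧ rk C H X i = r X i) → ∀ (X : 𝒱.Obj) (i : ℤ), i ≤ N →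
        (X.dim : ℤ) = 2 * i - 1 → IsFin C H X i ∧ rk C H X i = r X i := by
    intro N h X i hi hd
    have h1 : ((i.toNat : ℕ) : ℤ) = i := Int.toNat_of_nonneg (by omega)
    have h2 := h X i.toNat (by omega) (by omega)
    rwa [h1] at h2
  have key : ∀ N : ℤ, (∀ (X : 𝒱.Obj) (i : ℕ), X.dim + 1 = 2 * i → (i : ℤ) ≤ N →
        IsFin C H X i ∧ rk C H X i = r X i) →
      ∀ (X : 𝒱.Obj) (j j' : ℕ), j + j' = X.dim + 1 → (j : ℤ) ≤ N → (j' : ℤ) ≤ N →
        IsFin C H X j ∧ rk C H X j + rk C H X j' = r X j + r X j' := by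
    intro N h X j j' hjj hj hj'
    have e1 : (j' : ℤ) = X.dim + 1 - j := by omega
    obtain ⟨h1, h2⟩ := averaged hL hr (hnat h) X hj (by rw [← e1]; exact hj')
    refine ⟨h1, ?_⟩
    rw [e1, h2, hr.symm]
    ring
  refine ⟨fun N h X j j' hjj hj hj' => key N (fun X i hd hi => h X i hd (by exact_mod_cast hi)) X j
    j' hjj (by exact_mod_cast hj) (by exact_mod_cast hj'), ⟨fun h X j j' hjj => ?_,
    fun h X i hd => ?_⟩, fun hdim => ⟨fun h X j => ?_, fun h X i _ => h X i⟩⟩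
  · exact key (max j j') (fun X i hd _ => h X i hd) X j j' hjj (le_max_left _ _)
      (le_max_right _ _)
  · obtain ⟨h1, h2⟩ := h X i i (by omega)
    exact ⟨h1, by omega⟩
  · by_cases hj : j ≤ X.dim + 1
    · obtain ⟨j', hj'⟩ : ∃ j' : ℕ, j + j' = X.dim + 1 := ⟨X.dim + 1 - j, by omega⟩
      obtain ⟨h1, h2⟩ := key (max j j') (fun X i hd _ => h X i hd) X j j' hj' (le_max_left _ _)
        (le_max_right _ _)
      have h3 := hdim X j j' hj' h1
      have e1 : (j' : ℤ) = X.dim + 1 - j := by omega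
      have h4 : r X j' = r X j := by rw [e1, hr.symm]
      exact ⟨h1, by omega⟩
    · -- codimension larger than the dimension
      have h1 : ∀ (X : 𝒱.Obj) (l : ℤ), l ≤ 0 ∨ (X.dim : ℤ) < l → IsFin C H X l ∧ rk C H X l = 0 := by
        intro X l hl
        have h2 := homTriv_out (H := H) (dg C X) hl
        rw [← cycles0_eq] at h2
        rw [IsFin, rk, h2, finrank_bot]
        exact ⟨inferInstance, rfl⟩
      have h2 := (h1 X j (Or.inr (by omega))).2
      have h3 := (h1 X ((X.dim : ℤ) + 1 - j) (Or.inl (by omega))).2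
      have h4 := (averaged hL hr (N := max (j : ℤ) (X.dim + 1 - j)) (hnat fun X i hd _ => h X i hd) X
        (le_max_left _ _) (le_max_right _ _)).2
      refine ⟨(h1 X j (Or.inr (by omega))).1, ?_⟩
      omega

/-- Divisors and zero-cycles: the averaged formula bounds the rank of the Picard variety. -/
theorem picard (hL : IsProjectiveLine C L) {r : 𝒱.Obj → ℤ → ℤ} (hr : IsOrderFunction L r)
    (hq : ∀ (X : 𝒱.Obj) (i : ℕ), X.dim + 1 = 2 * i → IsFin C H X i ∧ rk C H X i = r X i)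
    (X : 𝒱.Obj) (hX : 1 ≤ X.dim) {η : C.A X} (hη : C.Deg (X.dim - 1) η)
    (hinj : ∀ z, C.Deg 1 z → H.cl z = 0 → C.mul z η = 0 → z = 0) :
    rk C H X 1 ≤ r X 1 ∧ (rk C H X 1 = r X 1 ↔
      ∀ w, C.Deg X.dim w → H.cl w = 0 → ∃ z, C.Deg 1 z ∧ H.cl z = 0 ∧ w = C.mul z η) := by
  obtain ⟨h1, h2⟩ := ((averaged_iff hL hr).2.1.1 hq) X 1 X.dim (by omega)
  obtain ⟨h3, -⟩ := ((averaged_iff hL hr).2.1.1 hq) X X.dim 1 (by omega)
  have e1 : r X X.dim = r X 1 := by
    have h4 := hr.symm X 1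
    rwa [add_sub_cancel_right] at h4
  rw [Nat.cast_one] at h1 h2
  rw [e1] at h2
  have : Module.Finite ℚ (cycles0 C H X 1) := h1
  have : Module.Finite ℚ (cycles0 C H X (X.dim : ℤ)) := h3
  have hmem : ∀ z : C.A X, C.Deg 1 z → H.cl z = 0 →
      C.mul z η ∈ cycles0 C H X (X.dim : ℤ) := by
    intro z hz h0
    refine ⟨?_, ?_⟩
    · have h4 := C.mul_mem hz hη
      have e2 : (1 : ℤ) + (X.dim - 1) = X.dim := by ring
      rw [e2] at h4
      exact h4
    · change H.cl (z * η) = 0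
      rw [map_mul, h0, zero_mul]
  let φ : cycles0 C H X 1 →ₗ[ℚ] cycles0 C H X (X.dim : ℤ) :=
    { toFun := fun z => ⟨C.mul z.1 η, hmem z.1 z.2.1 z.2.2⟩
      map_add' := fun a b => Subtype.ext (add_mul a.1 b.1 η)
      map_smul' := fun q a => Subtype.ext (smul_mul_assoc q a.1 η) }
  have hφ : Function.Injective φ := by
    rw [injective_iff_map_eq_zero]
    intro z hz
    exact Subtype.ext (hinj z.1 z.2.1 z.2.2 (congrArg Subtype.val hz))
  have h5 := LinearMap.finrank_le_finrank_of_injective hφ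
  have h5' : rk C H X 1 ≤ rk C H X X.dim := by
    rw [rk, rk]
    exact_mod_cast h5
  refine ⟨by omega, fun h6 => ?_, fun h6 => ?_⟩
  · have h7 : Module.finrank ℚ (cycles0 C H X 1) = Module.finrank ℚ (cycles0 C H X (X.dim : ℤ)) := by
      have h8 : rk C H X 1 = rk C H X X.dim := by omega
      rw [rk, rk] at h8
      exact_mod_cast h8
    have h9 : Function.Surjective φ := by
      rw [← LinearMap.range_eq_top]
      apply Submodule.eq_top_of_finrank_eq
      rw [LinearMap.finrank_range_of_inj hφ, h7]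
    intro w hw h0
    obtain ⟨z, hz⟩ := h9 ⟨w, hw, h0⟩
    exact ⟨z.1, z.2.1, z.2.2, (congrArg Subtype.val hz).symm⟩
  · have h9 : Function.Surjective φ := by
      rintro ⟨w, hw, h0⟩
      obtain ⟨z, hz, hz0, hzw⟩ := h6 w hw h0
      exact ⟨⟨z, hz, hz0⟩, Subtype.ext hzw.symm⟩
    have h10 := (LinearEquiv.ofBijective φ ⟨hφ, h9⟩).finrank_eq
    have h11 : rk C H X 1 = rk C H X X.dim := by
      rw [rk, rk]
      exact_mod_cast h10
    omega

end Pool.Agent.Q187.RK
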