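import Pool.Agent.Q187.AJ.Stmt

/-!
# The averaged rank formula: definitions
-/

open CategoryTheory AlgebraicGeometry

universe u v w

namespace Pool.Agent.Q187.RK

open Pool.Agent.H914 Pool.Agent.H914.VarClass Pool.Agent.H914.VarClass.Obj Pool.Agent.W492.BB
  Pool.Agent.W550.Corr Pool.Agent.TH133 Pool.Agent.Q187.AJS

variable {k : Type u} [Field k] {𝒱 : VarClass k} (C : TheoryData.{u, v, 0} 𝒱 ℚ)
  {K : Type w} [Field K] (H : WeilTheoryData.{u, v, w} C K)

/-- The space `CH^j(X)_0` of the homologically trivial cycles of codimension `j` on `X`, with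
rational coefficients. -/
def cycles0 (X : 𝒱.Obj) (j : ℤ) : Submodule ℚ (C.A X) where
  carrier := {z | C.Deg j z ∧ Triv C H z}
  zero_mem' := ⟨Submodule.zero_mem _, map_zero _⟩
  add_mem' := by
    rintro a b ⟨h1, h2⟩ ⟨h4, h5⟩
    refine ⟨Submodule.add_mem _ h1 h4, ?_⟩
    have h2' : H.cl a = 0 := h2
    have h5' : H.cl b = 0 := h5
    change H.cl (a + b) = 0
    rw [map_add, h2', h5', add_zero]
  smul_mem' := by
    rintro q a ⟨h1, h2⟩
    refine ⟨Submodule.smul_mem _ q h1, ?_⟩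
    have h2' : H.cl a = 0 := h2
    change H.cl (q • a) = 0
    rw [Algebra.smul_def, map_mul, h2', mul_zero]

/-- The dimension of `CH^j(X)_0` (zero if it is infinite). -/
noncomputable def rk (X : 𝒱.Obj) (j : ℤ) : ℤ := Module.finrank ℚ (cycles0 C H X j)

/-- The space `CH^j(X)_0` is finite-dimensional. -/
def IsFin (X : 𝒱.Obj) (j : ℤ) : Prop := Module.Finite ℚ (cycles0 C H X j)

/-- `L` is a projective line: a curve with a zero-cycle `o` of degree one such that
`Δ = o × L + L × o`. -/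
def IsProjectiveLine (L : 𝒱.Obj) : Prop :=
  ∃ o : C.A L, L.dim = 1 ∧ DegreeOne C o ∧ odd C o = 0

/-- The formal properties of the function `r X j = ord_{s=j} L(H^(2j-1)(X), s)` on smooth projective
varieties over a global field: `H^(2j-1)(X × P^1) = H^(2j-1)(X) ⊕ H^(2j-3)(X)(-1)` gives
`r (X × P^1) j = r X j + r X (j - 1)`, and the isomorphism
`H^(2j-1)(X) = H^(2(d+1-j)-1)(X)(d+1-2j)`, `d = dim X`, of the hard Lefschetz theorem (or the
functional equation) gives `r X (d + 1 - j) = r X j`. -/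
structure IsOrderFunction (L : 𝒱.Obj) (r : 𝒱.Obj → ℤ → ℤ) : Prop where
  prod : ∀ (X : 𝒱.Obj) (j : ℤ), r (X.prod L) j = r X j + r X (j - 1)
  symm : ∀ (X : 𝒱.Obj) (j : ℤ), r X (X.dim + 1 - j) = r X j

end Pool.Agent.Q187.RK
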