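import Pool.Agent.Q187.RK.Sym

/-!
# The rank formula in all codimensions follows from the middle cases
-/

open CategoryTheory AlgebraicGeometry

universe u v w

namespace Pool.Agent.Q187.RK

open Pool.Agent.H914 Pool.Agent.H914.VarClass Pool.Agent.H914.VarClass.Obj Pool.Agent.W492.BB
  Pool.Agent.W550.Corr Pool.Agent.TH133 Pool.Agent.Y148.BB Pool.Agent.Q187.AJ

set_option linter.unusedSectionVars false
set_option linter.unusedVariables false

variable {k : Type u} [Field k] {𝒱 : VarClass k}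

variable {C : TheoryData.{u, v, 0} 𝒱 ℚ} [hC : IsChowProj C] {K : Type w} [Field K]
  {H : WeilTheoryData.{u, v, w} C K} [hH : IsWeilProj H] {X Y Z W B P M L : 𝒱.Obj}
  {e : ∀ X : 𝒱.Obj, C.A (X.prod X) → ℤ → ℤ} {A : Type*} [AddCommGroup A]
  {δ : ∀ X : 𝒱.Obj, C.A (X.prod X) → ℤ → A}

include hC hH

lemma kills_tens {n m : ℤ} {p : C.A (P.prod P)} {r : C.A (B.prod B)}
    (hp : ∀ l : ℤ, l ≠ n → Kills H p l) (hr : ∀ l : ℤ, l ≠ m → Kills H r l) :
    ∀ l : ℤ, l ≠ n + m → Kills H (tens C p r) l := by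
  intro l hl a ha
  have h1 := H.kunneth P B l ha
  clear ha
  induction h1 using Submodule.span_induction with
  | mem x hx =>
    obtain ⟨i, a, b, ha, hb, rfl⟩ := hx
    have e0 : H.pull (fst P B) a * H.pull (snd P B) b = H.ext a b := rfl
    rw [e0, actH_tens_ext]
    by_cases hi : i = n
    · rw [hr (l - i) (by omega) b hb, TheoryData.ext_zero_right]
    · rw [hp i hi a ha, TheoryData.ext_zero_left]
  | zero => rw [TheoryData.act_map_zero]
  | add x y _ _ hx hy => rw [act_map_add, hx, hy, add_zero]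
  | smul r x _ hx => rw [act_map_smul, hx, smul_zero]

lemma prim_kills {p : C.A (P.prod P)} (hp : IsPrim C H P p) :
    ∀ l : ℤ, l ≠ P.dim → Kills H p l := by
  induction hp with
  | base B b h => exact h.kills
  | prod P P' p p' _ _ ih ih' =>
    intro l hl
    refine kills_tens ih ih' l ?_
    rw [dim_prod] at hl
    push_cast at hl
    exact hl

/-- Vanishing outside the range of codimensions. -/
lemma homTriv_out (p : C.A (P.prod P)) {j : ℤ} (hj : j ≤ 0 ∨ (P.dim : ℤ) < j) :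
    homTriv C H p j = ⊥ := by
  rw [eq_bot_iff]
  rintro z ⟨hz, h0, -⟩
  have h0' : H.cl z = 0 := h0
  rw [Submodule.mem_bot]
  rcases hj with hj | hj
  · rcases lt_or_eq_of_le hj with h | h
    · have h1 : z ∈ C.gr P j := hz
      rw [C.gr_neg P j h] at h1
      exact (Submodule.mem_bot _).1 h1
    · subst h
      obtain ⟨c, rfl⟩ := hC.gr_zero _ z hz
      rw [Algebra.smul_def, mul_one] at h0' ⊢
      by_contra hne
      have hc : c ≠ 0 := fun h => hne (by rw [h, map_zero])
      have h2 : H.cl (algebraMap ℚ (C.A P) c⁻¹ * algebraMap ℚ (C.A P) c) = 0 := by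
        rw [map_mul, h0', mul_zero]
      rw [← map_mul, inv_mul_cancel₀ hc, map_one, map_one] at h2
      exact hH.one_ne_zero P h2
  · exact hC.gr_top P j z hz hj

lemma kills_out {p : C.A (P.prod P)} {j : ℤ} (hj : j ≤ 0 ∨ (P.dim : ℤ) < j) :
    Kills H p (2 * j - 1) := by
  intro a ha
  have h1 : a = 0 := by
    rcases hj with hj | hj
    · have h2 : a ∈ H.gr P (2 * j - 1) := ha
      rw [H.gr_neg P _ (by omega)] at h2
      exact (Submodule.mem_bot _).1 h2
    · have h2 : a ∈ H.gr P (2 * j - 1) := ha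
      rw [gr_top H (by omega)] at h2
      exact (Submodule.mem_bot _).1 h2
  rw [h1, TheoryData.act_map_zero]

/-- The formula for the products of middle parts: no homologically trivial cycles, except in
codimension `(dim P + 1) / 2`. -/
def PrimForm (H : WeilTheoryData.{u, v, w} C K) {A : Type*} [AddCommGroup A]
    (δ : ∀ X : 𝒱.Obj, C.A (X.prod X) → ℤ → A) (N : ℤ) : Prop :=
  ∀ (P : 𝒱.Obj) (p : C.A (P.prod P)), IsPrim C H P p → ∀ j : ℤ, j ≤ N → (P.dim : ℤ) + 1 - j ≤ N →
    (2 * j ≠ P.dim + 1 → homTriv C H p j = ⊥) ∧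
      (2 * j = P.dim + 1 → Fn H P p j ∧ δ P p j = 0)

/-- The vanishing part follows from positivity. -/
lemma primForm_of_sym (he : IsOrder C H e) {N : ℤ}
    (h : ∀ W, IsProd C H W → Sym H (D H e) N W (dg C W)) : PrimForm H (D H e) N := by
  intro P p hp j hj hj'
  obtain ⟨h1, h2, h3⟩ := (ag_of_prim (isDefect_D he) h hp).1 j hj hj'
  have hpr := prim_pr hp
  have hk := prim_kills hp
  refine ⟨fun hne => ?_, fun heq => ⟨h1, h2 heq⟩⟩
  have h3' : e P p j = 0 := he.kills P p j hpr (hk _ (by omega))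
  have h4 : e P p (P.dim + 1 - j) = 0 := he.kills P p _ hpr (hk _ (by omega))
  rw [D, D, h3', h4, sub_zero, sub_zero] at h3
  have h5 : Module.finrank ℚ (homTriv C H p j) = 0 := by omega
  have : Module.Finite ℚ (homTriv C H p j) := h1
  exact Submodule.finrank_eq_zero.1 h5

/-- The same for a second invariant. -/
lemma primForm_of_sym' (hδ : IsDefect H δ) {N : ℤ}
    (h0 : PrimForm H (D H e) N) (h : ∀ W, IsProd C H W → Sym H δ N W (dg C W)) :
    PrimForm H δ N := by
  intro P p hp j hj hj'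
  obtain ⟨h1, h2, h3⟩ := (ag_of_prim hδ h hp).1 j hj hj'
  exact ⟨(h0 P p hp j hj hj').1, fun heq => ⟨h1, h2 heq⟩⟩

variable (hδ : IsDefect H δ)
include hδ

/-- The full formula for `(X, q)`. -/
def Full (H : WeilTheoryData.{u, v, w} C K) {A : Type*} [AddCommGroup A]
    (δ : ∀ X : 𝒱.Obj, C.A (X.prod X) → ℤ → A) (X : 𝒱.Obj) (q : C.A (X.prod X)) : Prop :=
  ∀ j : ℤ, Fn H X q j ∧ δ X q j = 0

lemma full_of_primForm {N : ℤ} (h : PrimForm H δ N) {p : C.A (P.prod P)} (hp : IsPrim C H P p)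
    (hd : (P.dim : ℤ) ≤ N) : Full H δ P p := by
  intro j
  by_cases hj : j ≤ 0 ∨ (P.dim : ℤ) < j
  · exact ⟨fn_of_bot (homTriv_out p hj),
      hδ.zero P p j (prim_pr hp) (kills_out hj) (homTriv_out p hj)⟩
  · push Not at hj
    obtain ⟨h1, h2⟩ := h P p hp j (by omega) (by omega)
    by_cases hne : 2 * j = P.dim + 1
    · exact h2 hne
    · exact ⟨fn_of_bot (h1 hne),
        hδ.zero P p j (prim_pr hp) (prim_kills hp _ (by omega)) (h1 hne)⟩

lemma full_var {f : X ⟶ Y} {g : Y ⟶ X} (h1 : f ≫ g = 𝟙 X) (h2 : g ≫ f = 𝟙 Y)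
    (hd : X.dim = Y.dim) {p : C.A (Y.prod Y)} (hp : Pr p) (h : Full H δ Y p) :
    Full H δ X (C.pull (prodMap f f) p) := by
  intro j
  rw [fn_var h1 h2 hd hp, δ_var hδ h1 h2 hd hp]
  exact h j

lemma full_add {b : C.A (B.prod B)} (hb : IsMiddle C H B b) {q : C.A (X.prod X)} (hq : Pr q)
    (h1 : Full H δ (X.prod B) (tens C q b)) (h2 : Full H δ X q) :
    Full H δ (X.prod B) (tens C q (dg C B)) := by
  obtain ⟨m, a, a', t, hm⟩ := exists_mid hb
  intro j
  have h3 : Fn H (X.prod B) (tens C q (dg C B)) j :=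
    (fn_split hm hq j).2 ⟨(h1 j).1, fun i => (h2 _).1⟩
  refine ⟨h3, ?_⟩
  rw [δ_split hδ hm hq h3, (h1 j).2, Finset.sum_eq_zero fun i _ => (h2 _).2, add_zero]

/-- The full formula for `(X, q)` and its products with middle parts, in dimensions at most `d`. -/
def GC (H : WeilTheoryData.{u, v, w} C K) {A : Type*} [AddCommGroup A]
    (δ : ∀ X : 𝒱.Obj, C.A (X.prod X) → ℤ → A) (d : ℤ) (X : 𝒱.Obj) (q : C.A (X.prod X)) : Prop :=
  ((X.dim : ℤ) ≤ d → Full H δ X q) ∧ ∀ (P : 𝒱.Obj) (p : C.A (P.prod P)), IsPrim C H P p →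
    (X.dim : ℤ) + P.dim ≤ d → Full H δ (X.prod P) (tens C q p)

lemma gc_var {f : X ⟶ Y} {g : Y ⟶ X} (h1 : f ≫ g = 𝟙 X) (h2 : g ≫ f = 𝟙 Y) (hd : X.dim = Y.dim)
    {d : ℤ} {p : C.A (Y.prod Y)} (hp : Pr p) (h : GC H δ d Y p) :
    GC H δ d X (C.pull (prodMap f f) p) := by
  refine ⟨fun h3 => full_var hδ h1 h2 hd hp (h.1 (by rw [← hd]; exact h3)), fun P r hr h3 => ?_⟩
  have h4 := full_var (f := prodMap f (𝟙 P)) (g := prodMap g (𝟙 P)) hδ
    (by rw [prodMap_comp, h1, Category.comp_id, prodMap_id])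
    (by rw [prodMap_comp, h2, Category.comp_id, prodMap_id])
    (by rw [dim_prod, dim_prod, hd]) (pr_tens hp (prim_pr hr)) (h.2 P r hr (by rw [← hd]; exact h3))
  rw [pull_prodMap_tens, prodMap_id, C.pull_id] at h4
  exact h4

lemma gc_base {d : ℤ} (h : ∀ (P : 𝒱.Obj) (p : C.A (P.prod P)), IsPrim C H P p →
    (P.dim : ℤ) ≤ d → Full H δ P p) {b : C.A (B.prod B)} (hb : IsMiddle C H B b) :
    GC H δ d B (dg C B) := by
  obtain ⟨m, a, a', t, hm⟩ := exists_mid hb
  refine ⟨fun hd j => ?_, fun P p hp hd => ?_⟩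
  · obtain ⟨h1, h2⟩ := h B b (IsPrim.base B b hb) hd j
    have h3 := (fn_mid hm j).2 h1
    exact ⟨h3, by rw [δ_mid hδ hm h3, h2]⟩
  · have h1 : Full H δ (P.prod B) (tens C p (dg C B)) :=
      full_add hδ hb (prim_pr hp)
        (h _ _ (IsPrim.prod P B p b hp (IsPrim.base B b hb)) (by rw [dim_prod]; push_cast; omega))
        (h P p hp (by omega))
    have h2 := full_var (f := sw B P) (g := sw P B) hδ sw_sw sw_sw
      (by simp only [dim_prod]; omega) (pr_tens (prim_pr hp) (pr_dg B)) h1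
    rw [pull_sw_tens] at h2
    exact h2

lemma gc_step {d : ℤ} (hW : IsProd C H W) : ∀ (X : 𝒱.Obj) (q : C.A (X.prod X)), Pr q →
    GC H δ d X q → GC H δ d (X.prod W) (tens C q (dg C W)) := by
  induction hW with
  | base B b hb =>
    intro X q hq hG
    obtain ⟨m, a, a', t, hm⟩ := exists_mid hb
    refine ⟨fun hd => full_add hδ hb hq (hG.2 B b (IsPrim.base B b hb) ?_) (hG.1 ?_),
      fun P p hp hd => ?_⟩
    · rw [dim_prod] at hd; push_cast at hd; exact hd
    · rw [dim_prod] at hd; push_cast at hd; omega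
    · rw [dim_prod] at hd
      push_cast at hd
      have h1 : Full H δ ((X.prod P).prod B) (tens C (tens C q p) b) := by
        have h2 := full_var (f := aI X P B) (g := aJ X P B) hδ aI_aJ aJ_aI
          (by simp only [dim_prod]; omega) (pr_tens hq (pr_tens (prim_pr hp) (mid_pr hm)))
          (hG.2 (P.prod B) (tens C p b) (IsPrim.prod P B p b hp (IsPrim.base B b hb))
            (by rw [dim_prod]; push_cast; omega))
        rw [pull_aI_tens] at h2
        exact h2
      have h3 := full_add hδ hb (pr_tens hq (prim_pr hp)) h1 (hG.2 P p hp (by omega))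
      have h4 := full_var (f := ex X B P) (g := ex X P B) hδ (ex_ex X B P) (ex_ex X P B)
        (by simp only [dim_prod]; omega) (pr_tens (pr_tens hq (prim_pr hp)) (pr_dg B)) h3
      rw [pull_ex_tens] at h4
      exact h4
  | prod W W' _ _ ih ih' =>
    intro X q hq hG
    have h1 := ih' (X.prod W) _ (pr_tens hq (pr_dg W)) (ih X q hq hG)
    have h2 := gc_var (f := aJ X W W') (g := aI X W W') hδ aJ_aI aI_aJ
      (by simp only [dim_prod]; omega) (pr_tens (pr_tens hq (pr_dg W)) (pr_dg W')) h1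
    have h3 : C.pull (prodMap (aJ X W W') (aJ X W W')) (tens C (tens C q (dg C W)) (dg C W')) =
        tens C q (dg C (W.prod W')) := by
      rw [← pull_aI_tens q (dg C W) (dg C W'), ← C.pull_comp, prodMap_comp, aJ_aI, prodMap_id,
        C.pull_id, tens_dg]
    rw [h3] at h2
    exact h2

lemma gc_prod {d : ℤ} (h : ∀ (P : 𝒱.Obj) (p : C.A (P.prod P)), IsPrim C H P p →
    (P.dim : ℤ) ≤ d → Full H δ P p) (hX : IsProd C H X) : GC H δ d X (dg C X) := by
  induction hX with
  | base B b hb => exact gc_base hδ h hb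
  | prod W W' hW hW' ih _ =>
    have h1 := gc_step hδ hW' W (dg C W) (pr_dg W) ih
    rw [tens_dg] at h1
    exact h1

/-- From the middle parts to the varieties. -/
theorem full_of_prim {N : ℤ} (h : PrimForm H δ N) (hX : IsProd C H X) (hd : (X.dim : ℤ) ≤ N) :
    Full H δ X (dg C X) :=
  (gc_prod hδ (fun P p hp hP => full_of_primForm hδ h hp hP) hX).1 hd

omit hH hδ in
lemma isMiddle_line {o : C.A L} (h : IsLine C L o) : IsMiddle C H L 0 := by
  obtain ⟨hL, ho, hd, hdg⟩ := h
  refine ⟨⟨1, fun _ => 0, fun _ => 1, fun _ => o, fun s => ⟨?_, ?_, ?_⟩, fun s t => ?_, ?_⟩,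
    fun m _ a _ => ?_⟩
  · change 2 * 0 < L.dim
    omega
  · exact_mod_cast C.one_mem L
  · rw [hL]; exact_mod_cast ho
  · rw [if_pos (Subsingleton.elim s t)]
    change HasDegree C (1 * o) 1
    rw [one_mul]; exact hd
  · rw [zero_add]
    simp only [Finset.univ_unique, Fin.default_eq_zero, Finset.sum_const, Finset.card_singleton,
      one_smul]
    exact (add_comm _ _).trans hdg
  · rw [map_zero, TheoryData.act_zero]

/-- The middle cases in codimensions at most `N` imply the averaged formula. -/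
theorem sym_of_middle {o : C.A L} (hL : IsLine C L o) {N : ℤ}
    (h : ∀ X, IsProd C H X → ∀ i : ℤ, i ≤ N → (X.dim : ℤ) = 2 * i - 1 →
      Fn H X (dg C X) i ∧ δ X (dg C X) i = 0) (hX : IsProd C H X) : Sym H δ N X (dg C X) := by
  have hS : ∀ X, IsProd C H X → IsProd C H (X.prod L) := fun X hX =>
    IsProd.prod X L hX (IsProd.base L 0 (isMiddle_line hL))
  exact sym_base hδ hL hS h hX

omit hδ in
/-- **Main theorem.** -/
theorem main (he : IsOrder C H e) {o : C.A L} (hL : IsLine C L o) (N : ℤ)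
    (h : ∀ X, IsProd C H X → ∀ i : ℤ, i ≤ N → (X.dim : ℤ) = 2 * i - 1 →
      RankFormula C H e (dg C X) i) :
    PrimForm H (D H e) N ∧ ∀ X, IsProd C H X → (X.dim : ℤ) ≤ N → ∀ j : ℤ,
      RankFormula C H e (dg C X) j := by
  have hδ := isDefect_D he
  have h1 : PrimForm H (D H e) N := primForm_of_sym he fun W hW =>
    sym_of_middle hδ hL (fun X hX i hi hd => rankFormula_iff.1 (h X hX i hi hd)) hW
  exact ⟨h1, fun X hX hd j => rankFormula_iff.2 (full_of_prim hδ h1 hX hd j)⟩

end Pool.Agent.Q187.RK
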